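import Mathlib

/-!
# Dilation walks: the basic operators on `L^p`
-/

set_option autoImplicit false

open MeasureTheory Filter Topology
open scoped ENNReal NNReal

namespace Pool.Agent.V11282.DW

variable {α : Type} [MeasurableSpace α] {μ : Measure α}

/-- operators on `L^p` from operations on functions -/
noncomputable def mkOp (p : ℝ≥0∞) [Fact (1 ≤ p)] (φ : (α → ℝ) → (α → ℝ))
    (hadd : ∀ f g, φ (f + g) = φ f + φ g) (hsmul : ∀ (c : ℝ) f, φ (c • f) = c • φ f)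
    (hae : ∀ f g : α → ℝ, f =ᵐ[μ] g → φ f =ᵐ[μ] φ g) (C : ℝ) (hC : 0 ≤ C)
    (hb : ∀ f, MemLp f p μ → MemLp (φ f) p μ ∧ eLpNorm (φ f) p μ ≤ ENNReal.ofReal C * eLpNorm f p μ) :
    Lp ℝ p μ →L[ℝ] Lp ℝ p μ :=
  LinearMap.mkContinuous
    { toFun := fun f => (hb f (Lp.memLp f)).1.toLp (φ f)
      map_add' := by
        intro f g
        apply Lp.ext
        refine (MemLp.coeFn_toLp _).trans ?_
        refine (hae _ _ (Lp.coeFn_add f g)).trans ?_
        rw [hadd]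
        refine EventuallyEq.symm ((Lp.coeFn_add _ _).trans ?_)
        filter_upwards [(MemLp.coeFn_toLp (hb f (Lp.memLp f)).1),
          (MemLp.coeFn_toLp (hb g (Lp.memLp g)).1)] with x h1 h2
        simp only [Pi.add_apply, h1, h2]
      map_smul' := by
        intro c f
        apply Lp.ext
        refine (MemLp.coeFn_toLp _).trans ?_
        refine (hae _ _ (Lp.coeFn_smul c f)).trans ?_
        rw [hsmul]
        refine EventuallyEq.symm ((Lp.coeFn_smul _ _).trans ?_)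
        filter_upwards [(MemLp.coeFn_toLp (hb f (Lp.memLp f)).1)] with x h1
        simp only [Pi.smul_apply, h1, RingHom.id_apply] }
    C (by
      intro f
      have h := (hb f (Lp.memLp f)).2
      show ‖(hb f (Lp.memLp f)).1.toLp (φ f)‖ ≤ C * ‖f‖
      rw [Lp.norm_toLp, Lp.norm_def, ← ENNReal.toReal_ofReal hC, ← ENNReal.toReal_mul]
      exact ENNReal.toReal_mono (ENNReal.mul_ne_top ENNReal.ofReal_ne_top (Lp.eLpNorm_ne_top f)) h)

lemma mkOp_coe (p : ℝ≥0∞) [Fact (1 ≤ p)] (φ : (α → ℝ) → (α → ℝ)) (hadd) (hsmul) (hae) (C : ℝ)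
    (hC : 0 ≤ C) (hb) (f : Lp ℝ p μ) :
    (mkOp (μ := μ) p φ hadd hsmul hae C hC hb f : α → ℝ) =ᵐ[μ] φ f :=
  MemLp.coeFn_toLp (hb f (Lp.memLp f)).1

lemma mkOp_norm (p : ℝ≥0∞) [Fact (1 ≤ p)] (φ : (α → ℝ) → (α → ℝ)) (hadd) (hsmul) (hae) (C : ℝ)
    (hC : 0 ≤ C) (hb) :
    ‖mkOp (μ := μ) p φ hadd hsmul hae C hC hb‖ ≤ C :=
  LinearMap.mkContinuous_norm_le _ hC _

/-- composition with a map that multiplies the measure by a constant -/
noncomputable def cmp (p : ℝ≥0∞) [Fact (1 ≤ p)] (h : α → α) (hm : Measurable h) (k : ℝ)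
    (hk : 0 < k) (hmap : μ.map h = ENNReal.ofReal k • μ) : Lp ℝ p μ →L[ℝ] Lp ℝ p μ :=
  mkOp p (fun f => f ∘ h) (fun _ _ => rfl) (fun _ _ => rfl)
    (fun f g hfg => by
      have hq : Measure.QuasiMeasurePreserving h μ μ := ⟨hm, by
        rw [hmap]; exact Measure.smul_absolutelyContinuous⟩
      exact hq.ae_eq_comp hfg)
    (k ^ (1 / p).toReal) (by positivity)
    (fun f hf => by
      have h1 : MemLp f p (μ.map h) := by
        rw [hmap]; exact hf.smul_measure ENNReal.ofReal_ne_top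
      refine ⟨h1.comp_of_map hm.aemeasurable, ?_⟩
      rw [← eLpNorm_map_measure h1.1 hm.aemeasurable, hmap,
        eLpNorm_smul_measure_of_ne_zero (by simpa using hk),
        smul_eq_mul, ENNReal.ofReal_rpow_of_pos hk])

lemma cmp_coe (p : ℝ≥0∞) [Fact (1 ≤ p)] (h : α → α) (hm : Measurable h) (k : ℝ)
    (hk : 0 < k) (hmap : μ.map h = ENNReal.ofReal k • μ) (f : Lp ℝ p μ) :
    (cmp p h hm k hk hmap f : α → ℝ) =ᵐ[μ] f ∘ h :=
  mkOp_coe _ _ _ _ _ _ _ _ f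

lemma cmp_norm (p : ℝ≥0∞) [Fact (1 ≤ p)] (h : α → α) (hm : Measurable h) (k : ℝ)
    (hk : 0 < k) (hmap : μ.map h = ENNReal.ofReal k • μ) :
    ‖cmp (μ := μ) p h hm k hk hmap‖ ≤ k ^ (1 / p).toReal :=
  mkOp_norm _ _ _ _ _ _ _ _

/-- multiplication by a bounded measurable function -/
noncomputable def mulOp (p : ℝ≥0∞) [Fact (1 ≤ p)] (g : α → ℝ) (hg : Measurable g) (C : ℝ)
    (hC : 0 ≤ C) (hb : ∀ x, |g x| ≤ C) : Lp ℝ p μ →L[ℝ] Lp ℝ p μ :=
  mkOp p (fun f => fun x => g x * f x) (fun _ _ => by ext x; simp [mul_add])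
    (fun c f => by ext x; simp only [Pi.smul_apply, smul_eq_mul]; ring)
    (fun f f' hf => by filter_upwards [hf] with x hx; rw [hx])
    C hC
    (fun f hf => by
      have h1 : ∀ᵐ x ∂μ, ‖g x * f x‖ ≤ C * ‖f x‖ := by
        refine Eventually.of_forall fun x => ?_
        rw [norm_mul]
        exact mul_le_mul_of_nonneg_right (hb x) (norm_nonneg _)
      exact ⟨hf.of_le_mul (hg.aestronglyMeasurable.mul hf.1) h1,
        eLpNorm_le_mul_eLpNorm_of_ae_le_mul h1 p⟩)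

open Classical in
/-- multiplication by `g` (zero if `g` is not bounded and measurable) -/
noncomputable def M (p : ℝ≥0∞) [Fact (1 ≤ p)] (μ : Measure α) (g : α → ℝ) :
    Lp ℝ p μ →L[ℝ] Lp ℝ p μ :=
  if h : Measurable g ∧ ∃ C : ℝ, 0 ≤ C ∧ ∀ x, |g x| ≤ C then
    mulOp p g h.1 h.2.choose h.2.choose_spec.1 h.2.choose_spec.2 else 0

lemma M_coe (p : ℝ≥0∞) [Fact (1 ≤ p)] {g : α → ℝ} (hg : Measurable g) {C : ℝ}
    (hb : ∀ x, |g x| ≤ C) (f : Lp ℝ p μ) :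
    (M p μ g f : α → ℝ) =ᵐ[μ] fun x => g x * f x := by
  have h : Measurable g ∧ ∃ C : ℝ, 0 ≤ C ∧ ∀ x, |g x| ≤ C :=
    ⟨hg, max C 0, le_max_right _ _, fun x => (hb x).trans (le_max_left _ _)⟩
  rw [M, dif_pos h]
  exact mkOp_coe _ _ _ _ _ _ _ _ f

lemma M_apply_le (p : ℝ≥0∞) [Fact (1 ≤ p)] {g : α → ℝ} (hg : Measurable g) {C : ℝ} (hC : 0 ≤ C)
    (hb : ∀ x, |g x| ≤ C) (f : Lp ℝ p μ) : ‖M p μ g f‖ ≤ C * ‖f‖ := by
  have h1 : ∀ᵐ x ∂μ, ‖(M p μ g f : α → ℝ) x‖ ≤ C * ‖(f : α → ℝ) x‖ := by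
    filter_upwards [M_coe p hg hb f] with x hx
    rw [hx, norm_mul]
    exact mul_le_mul_of_nonneg_right (hb x) (norm_nonneg _)
  exact Lp.norm_le_mul_norm_of_ae_le_mul h1

lemma M_norm (p : ℝ≥0∞) [Fact (1 ≤ p)] {g : α → ℝ} (hg : Measurable g) {C : ℝ} (hC : 0 ≤ C)
    (hb : ∀ x, |g x| ≤ C) : ‖M p μ g‖ ≤ C :=
  ContinuousLinearMap.opNorm_le_bound _ hC (M_apply_le p hg hC hb)

end Pool.Agent.V11282.DW
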