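import Pool.Agent.V11282.DW.A

/-!
# Dilation walks: the walk
-/

set_option autoImplicit false

open MeasureTheory Filter Topology
open scoped ENNReal NNReal

namespace Pool.Agent.V11282.DW

variable {α : Type} [MeasurableSpace α] {μ : Measure α}

/-- an invertible map which divides the measure by `c`, and an invariant unbounded speed `v` -/
structure Dila (μ : Measure α) where
  θ : α → α
  η : α → α
  c : ℝ
  hc : 1 < c
  mθ : Measurable θ
  mη : Measurable η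
  θη : ∀ x, θ (η x) = x
  ηθ : ∀ x, η (θ x) = x
  map_θ : μ.map θ = ENNReal.ofReal c⁻¹ • μ
  map_η : μ.map η = ENNReal.ofReal c • μ
  v : α → ℝ
  mv : Measurable v
  v1 : ∀ x, 1 ≤ v x
  vθ : ∀ x, v (θ x) = v x
  big : ∀ N : ℝ, ∃ B, MeasurableSet B ∧ 0 < μ B ∧ μ B < ∞ ∧ ∀ x ∈ B, N ≤ v x

namespace Dila

variable (D : Dila μ)

lemma c0 : 0 < D.c := by linarith [D.hc]

lemma v0 (x : α) : 0 < D.v x := by linarith [D.v1 x]

/-- the probability of a step in the direction `θ` -/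
noncomputable def a : ℝ := D.c / (1 + D.c)
/-- the probability of a step in the direction `η` -/
noncomputable def b : ℝ := 1 / (1 + D.c)

lemma a0 : 0 < D.a := by have := D.c0; unfold a; positivity
lemma b0 : 0 < D.b := by have := D.c0; unfold b; positivity
lemma ab : D.a + D.b = 1 := by have := D.c0; unfold a b; field_simp; ring
lemma abc : D.a = D.c * D.b := by have := D.c0; unfold a b; field_simp

/-- composition with `θ` -/
noncomputable def Cθ (p : ℝ≥0∞) [Fact (1 ≤ p)] : Lp ℝ p μ →L[ℝ] Lp ℝ p μ :=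
  cmp p D.θ D.mθ D.c⁻¹ (inv_pos.2 D.c0) D.map_θ
/-- composition with `η` -/
noncomputable def Cη (p : ℝ≥0∞) [Fact (1 ≤ p)] : Lp ℝ p μ →L[ℝ] Lp ℝ p μ :=
  cmp p D.η D.mη D.c D.c0 D.map_η

/-- the walk -/
noncomputable def P (p : ℝ≥0∞) [Fact (1 ≤ p)] : Lp ℝ p μ →L[ℝ] Lp ℝ p μ :=
  D.a • D.Cθ p + D.b • D.Cη p

/-- the walk on functions -/
noncomputable def W (f : α → ℝ) (x : α) : ℝ := D.a * f (D.θ x) + D.b * f (D.η x)

lemma qθ : Measure.QuasiMeasurePreserving D.θ μ μ :=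
  ⟨D.mθ, by rw [D.map_θ]; exact Measure.smul_absolutelyContinuous⟩
lemma qη : Measure.QuasiMeasurePreserving D.η μ μ :=
  ⟨D.mη, by rw [D.map_η]; exact Measure.smul_absolutelyContinuous⟩

lemma P_coe (p : ℝ≥0∞) [Fact (1 ≤ p)] (f : Lp ℝ p μ) : (D.P p f : α → ℝ) =ᵐ[μ] D.W f := by
  have e : D.P p f = D.a • D.Cθ p f + D.b • D.Cη p f := rfl
  rw [e]
  filter_upwards [Lp.coeFn_add (D.a • D.Cθ p f) (D.b • D.Cη p f), Lp.coeFn_smul D.a (D.Cθ p f),
    Lp.coeFn_smul D.b (D.Cη p f), cmp_coe p D.θ D.mθ D.c⁻¹ (inv_pos.2 D.c0) D.map_θ f,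
    cmp_coe p D.η D.mη D.c D.c0 D.map_η f] with x h1 h2 h3 h4 h5
  rw [h1, Pi.add_apply, h2, h3, Pi.smul_apply, Pi.smul_apply, smul_eq_mul, smul_eq_mul]
  unfold W
  rw [show (D.Cθ p f : α → ℝ) x = f (D.θ x) from h4, show (D.Cη p f : α → ℝ) x = f (D.η x) from h5]

lemma W_congr {f g : α → ℝ} (h : f =ᵐ[μ] g) : D.W f =ᵐ[μ] D.W g := by
  filter_upwards [D.qθ.ae_eq_comp h, D.qη.ae_eq_comp h] with x h1 h2
  unfold W
  rw [show f (D.θ x) = g (D.θ x) from h1, show f (D.η x) = g (D.η x) from h2]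

lemma W_inv {g : α → ℝ} (hg : ∀ x, g (D.θ x) = g x) (f : α → ℝ) :
    D.W (fun x => g x * f x) = fun x => g x * D.W f x := by
  have h2 : ∀ x, g (D.η x) = g x := fun x => by rw [← hg (D.η x), D.θη]
  ext x
  unfold W
  simp only [hg, h2]
  ring

lemma P_norm (p : ℝ≥0∞) [Fact (1 ≤ p)] : ‖D.P p‖ ≤ 2 := by
  have hc := D.hc
  have hp : 0 ≤ (1 / p).toReal := ENNReal.toReal_nonneg
  have hp1 : (1 / p).toReal ≤ 1 := by
    have h1 : (1 : ℝ≥0∞) ≤ p := Fact.out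
    have : 1 / p ≤ 1 := by
      rw [one_div]; exact ENNReal.inv_le_one.2 h1
    exact ENNReal.toReal_mono (by simp) this
  have h1 : ‖D.Cθ p‖ ≤ 1 := (cmp_norm p D.θ D.mθ D.c⁻¹ (inv_pos.2 D.c0) D.map_θ).trans
    (Real.rpow_le_one (inv_pos.2 D.c0).le (inv_le_one_of_one_le₀ hc.le) hp)
  have h2 : ‖D.Cη p‖ ≤ D.c := (cmp_norm p D.η D.mη D.c D.c0 D.map_η).trans (by
    calc D.c ^ (1 / p).toReal ≤ D.c ^ (1 : ℝ) := Real.rpow_le_rpow_of_exponent_le hc.le hp1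
      _ = D.c := Real.rpow_one _)
  calc ‖D.P p‖ ≤ ‖D.a • D.Cθ p‖ + ‖D.b • D.Cη p‖ := norm_add_le _ _
    _ ≤ D.a * 1 + D.b * D.c := by
        rw [norm_smul, norm_smul, Real.norm_of_nonneg D.a0.le, Real.norm_of_nonneg D.b0.le]
        have := D.a0; have := D.b0
        gcongr
    _ = 2 * D.a := by rw [D.abc]; ring
    _ ≤ 2 := by have := D.ab; have := D.b0; linarith

/-- the norm of the walk on `L²` -/
noncomputable def ρ : ℝ := D.a * D.c⁻¹ ^ (1 / 2 : ℝ) + D.b * D.c ^ (1 / 2 : ℝ)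

lemma P_norm2 : ‖D.P (μ := μ) 2‖ ≤ D.ρ := by
  have e : (1 / (2 : ℝ≥0∞)).toReal = 1 / 2 := by simp
  have h1 : ‖D.Cθ 2‖ ≤ D.c⁻¹ ^ (1 / 2 : ℝ) := by
    have := (cmp_norm 2 D.θ D.mθ D.c⁻¹ (inv_pos.2 D.c0) D.map_θ)
    rwa [e] at this
  have h2 : ‖D.Cη 2‖ ≤ D.c ^ (1 / 2 : ℝ) := by
    have := (cmp_norm 2 D.η D.mη D.c D.c0 D.map_η)
    rwa [e] at this
  calc ‖D.P 2‖ ≤ ‖D.a • D.Cθ 2‖ + ‖D.b • D.Cη 2‖ := norm_add_le _ _
    _ ≤ _ := by
        rw [norm_smul, norm_smul, Real.norm_of_nonneg D.a0.le, Real.norm_of_nonneg D.b0.le]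
        have := D.a0; have := D.b0
        unfold ρ
        gcongr

lemma ρ_lt : D.ρ < 1 := by
  have hc := D.hc
  have hc0 := D.c0
  have hb := D.b0
  have e1 : D.c⁻¹ ^ (1 / 2 : ℝ) = (√D.c)⁻¹ := by
    rw [← Real.sqrt_eq_rpow, Real.sqrt_inv]
  have e2 : D.c ^ (1 / 2 : ℝ) = √D.c := by rw [← Real.sqrt_eq_rpow]
  have hs1 : 1 < √D.c := Real.lt_sqrt_of_sq_lt (by linarith)
  have hsq : √D.c * √D.c = D.c := Real.mul_self_sqrt hc0.le
  have hs0 : 0 < √D.c := by linarith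
  unfold ρ
  rw [e1, e2]
  have h1 : D.a * (√D.c)⁻¹ = D.b * √D.c := by
    rw [D.abc]
    field_simp
    rw [sq, hsq]
  rw [h1]
  have h2 : D.b * (1 + D.c) = 1 := by unfold b; field_simp
  nlinarith [mul_pos hb (mul_pos (sub_pos.2 hs1) (sub_pos.2 hs1))]

lemma ρ0 : 0 ≤ D.ρ := by
  have := D.a0; have := D.b0; have := D.c0
  unfold ρ
  positivity

/-- integrals along the walk -/
lemma int_W {g f : α → ℝ} (hg : ∀ x, g (D.θ x) = g x) (h : Integrable (fun x => g x * f x) μ) :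
    Integrable (fun x => g x * D.W f x) μ ∧ ∫ x, g x * D.W f x ∂μ = ∫ x, g x * f x ∂μ := by
  set F : α → ℝ := fun x => g x * f x with hF
  have e : (fun x => g x * D.W f x) = fun x => D.a * F (D.θ x) + D.b * F (D.η x) := by
    have := D.W_inv hg f
    rw [← this]
    rfl
  have hθ : Integrable F (μ.map D.θ) := by
    rw [D.map_θ]; exact h.smul_measure ENNReal.ofReal_ne_top
  have hη : Integrable F (μ.map D.η) := by
    rw [D.map_η]; exact h.smul_measure ENNReal.ofReal_ne_top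
  have iθ : Integrable (fun x => F (D.θ x)) μ := hθ.comp_measurable D.mθ
  have iη : Integrable (fun x => F (D.η x)) μ := hη.comp_measurable D.mη
  have eθ : ∫ x, F (D.θ x) ∂μ = D.c⁻¹ * ∫ x, F x ∂μ := by
    rw [← integral_map D.mθ.aemeasurable hθ.1, D.map_θ, integral_smul_measure,
      ENNReal.toReal_ofReal (inv_nonneg.2 D.c0.le), smul_eq_mul]
  have eη : ∫ x, F (D.η x) ∂μ = D.c * ∫ x, F x ∂μ := by
    rw [← integral_map D.mη.aemeasurable hη.1, D.map_η, integral_smul_measure,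
      ENNReal.toReal_ofReal D.c0.le, smul_eq_mul]
  rw [e]
  refine ⟨(iθ.const_mul _).add (iη.const_mul _), ?_⟩
  rw [integral_add (iθ.const_mul _) (iη.const_mul _), integral_const_mul, integral_const_mul,
    eθ, eη]
  have hc0 := D.c0.ne'
  have h1 : D.a * D.c⁻¹ = D.b := by rw [D.abc]; field_simp
  have h2 : D.b * D.c = D.a := by rw [D.abc]; ring
  calc D.a * (D.c⁻¹ * ∫ x, F x ∂μ) + D.b * (D.c * ∫ x, F x ∂μ)
      = (D.a * D.c⁻¹ + D.b * D.c) * ∫ x, F x ∂μ := by ring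
    _ = _ := by rw [h1, h2, add_comm, D.ab, one_mul]

end Dila

end Pool.Agent.V11282.DW
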