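import Pool.Agent.V11282.DW.B

/-!
# Dilation walks: series in the walk with invariant coefficients
-/

set_option autoImplicit false

open MeasureTheory Filter Topology
open scoped ENNReal NNReal

namespace Pool.Agent.V11282.DW

variable {α : Type} [MeasurableSpace α] {μ : Measure α}

/-- bounded measurable functions -/
def Bd (g : α → ℝ) : Prop := Measurable g ∧ ∃ C : ℝ, 0 ≤ C ∧ ∀ x, |g x| ≤ C

lemma Bd.add {g h : α → ℝ} (hg : Bd g) (hh : Bd h) : Bd (fun x => g x + h x) := by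
  obtain ⟨m, C, hC, hb⟩ := hg
  obtain ⟨m', C', hC', hb'⟩ := hh
  exact ⟨m.add m', C + C', by positivity, fun x => (abs_add_le _ _).trans (add_le_add (hb x) (hb' x))⟩

lemma Bd.mul {g h : α → ℝ} (hg : Bd g) (hh : Bd h) : Bd (fun x => g x * h x) := by
  obtain ⟨m, C, hC, hb⟩ := hg
  obtain ⟨m', C', hC', hb'⟩ := hh
  refine ⟨m.mul m', C * C', by positivity, fun x => ?_⟩
  rw [abs_mul]
  exact mul_le_mul (hb x) (hb' x) (abs_nonneg _) hC

lemma M_coe' (p : ℝ≥0∞) [Fact (1 ≤ p)] {g : α → ℝ} (hg : Bd g) (f : Lp ℝ p μ) :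
    (M p μ g f : α → ℝ) =ᵐ[μ] fun x => g x * f x :=
  M_coe p hg.1 hg.2.choose_spec.2 f

lemma M_mul (p : ℝ≥0∞) [Fact (1 ≤ p)] {g h : α → ℝ} (hg : Bd g) (hh : Bd h) :
    M p μ g * M p μ h = M p μ (fun x => g x * h x) := by
  ext1 f
  apply Lp.ext
  show (M p μ g (M p μ h f) : α → ℝ) =ᵐ[μ] _
  filter_upwards [M_coe' p hg (M p μ h f), M_coe' p hh f, M_coe' p (hg.mul hh) f] with x h1 h2 h3
  rw [h1, h2, h3]
  ring

lemma M_add (p : ℝ≥0∞) [Fact (1 ≤ p)] {g h : α → ℝ} (hg : Bd g) (hh : Bd h) :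
    M p μ (fun x => g x + h x) = M p μ g + M p μ h := by
  ext1 f
  apply Lp.ext
  refine EventuallyEq.trans ?_ (Lp.coeFn_add (M p μ g f) (M p μ h f)).symm
  filter_upwards [M_coe' p hg f, M_coe' p hh f, M_coe' p (hg.add hh) f] with x h1 h2 h3
  rw [Pi.add_apply, h1, h2, h3]
  ring

lemma Bd.zero : Bd (fun _ : α => (0 : ℝ)) := ⟨measurable_const, 0, le_rfl, fun x => by simp⟩
lemma Bd.one : Bd (fun _ : α => (1 : ℝ)) := ⟨measurable_const, 1, zero_le_one, fun x => by simp⟩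

lemma M_zero (p : ℝ≥0∞) [Fact (1 ≤ p)] : M p μ (fun _ => (0 : ℝ)) = 0 := by
  ext1 f
  apply Lp.ext
  refine EventuallyEq.trans ?_ (Lp.coeFn_zero ℝ p μ).symm
  filter_upwards [M_coe' p Bd.zero f] with x h1
  rw [h1]; simp

lemma M_one (p : ℝ≥0∞) [Fact (1 ≤ p)] : M p μ (fun _ => (1 : ℝ)) = 1 := by
  ext1 f
  apply Lp.ext
  show _ =ᵐ[μ] (f : α → ℝ)
  filter_upwards [M_coe' p Bd.one f] with x h1
  rw [h1]; simp

lemma M_sum (p : ℝ≥0∞) [Fact (1 ≤ p)] {ι : Type} (S : Finset ι) (g : ι → α → ℝ)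
    (hg : ∀ i, Bd (g i)) :
    Bd (fun x => ∑ i ∈ S, g i x) ∧ M p μ (fun x => ∑ i ∈ S, g i x) = ∑ i ∈ S, M p μ (g i) := by
  classical
  induction S using Finset.induction_on with
  | empty =>
    simp only [Finset.sum_empty]
    exact ⟨Bd.zero, M_zero p⟩
  | insert i S hi ih =>
    have e : (fun x => ∑ j ∈ insert i S, g j x) = fun x => g i x + ∑ j ∈ S, g j x := by
      ext x; rw [Finset.sum_insert hi]
    rw [e, Finset.sum_insert hi]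
    exact ⟨(hg i).add ih.1, by rw [M_add p (hg i) ih.1, ih.2]⟩

namespace Dila

variable (D : Dila μ)

/-- admissible sequences of coefficients -/
structure Good (C : ℝ) (a : ℕ → α → ℝ) : Prop where
  C0 : 0 ≤ C
  meas : ∀ k, Measurable (a k)
  inv : ∀ k x, a k (D.θ x) = a k x
  bd : ∀ k x, |a k x| ≤ C * (1 / 4) ^ k

variable {D}

lemma Good.Bd {C : ℝ} {a : ℕ → α → ℝ} (h : D.Good C a) (k : ℕ) : Bd (a k) :=
  ⟨h.meas k, C * (1 / 4) ^ k, mul_nonneg h.C0 (by positivity), h.bd k⟩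

lemma M_P (p : ℝ≥0∞) [Fact (1 ≤ p)] {g : α → ℝ} (hg : DW.Bd g) (hi : ∀ x, g (D.θ x) = g x) :
    M p μ g * D.P p = D.P p * M p μ g := by
  ext1 f
  apply Lp.ext
  show (M p μ g (D.P p f) : α → ℝ) =ᵐ[μ] (D.P p (M p μ g f) : α → ℝ)
  have h1 : (D.P p (M p μ g f) : α → ℝ) =ᵐ[μ] D.W (fun x => g x * f x) :=
    (D.P_coe p _).trans (D.W_congr (M_coe' p hg f))
  rw [D.W_inv hi] at h1
  filter_upwards [h1, M_coe' p hg (D.P p f), D.P_coe p f] with x h1 h2 h3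
  rw [h1, h2, h3]

lemma M_Ppow (p : ℝ≥0∞) [Fact (1 ≤ p)] {g : α → ℝ} (hg : DW.Bd g) (hi : ∀ x, g (D.θ x) = g x)
    (k : ℕ) : M p μ g * D.P p ^ k = D.P p ^ k * M p μ g :=
  (Commute.pow_right (show Commute (M p μ g) (D.P p) from M_P p hg hi) k)

lemma norm_term (p : ℝ≥0∞) [Fact (1 ≤ p)] {C : ℝ} {a : ℕ → α → ℝ} (h : D.Good C a) (k : ℕ) :
    ‖M p μ (a k) * D.P p ^ k‖ ≤ C * (1 / 2) ^ k := by
  have h1 : ‖M p μ (a k)‖ ≤ C * (1 / 4) ^ k :=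
    M_norm p (h.meas k) (mul_nonneg h.C0 (by positivity)) (h.bd k)
  have h2 : ‖D.P p ^ k‖ ≤ 2 ^ k := by
    rcases Nat.eq_zero_or_pos k with rfl | hk
    · rw [pow_zero, pow_zero]; exact ContinuousLinearMap.norm_id_le
    · exact (norm_pow_le' _ hk).trans (pow_le_pow_left₀ (norm_nonneg _) (D.P_norm p) k)
  calc ‖M p μ (a k) * D.P p ^ k‖ ≤ ‖M p μ (a k)‖ * ‖D.P p ^ k‖ := norm_mul_le _ _
    _ ≤ (C * (1 / 4) ^ k) * 2 ^ k := mul_le_mul h1 h2 (norm_nonneg _)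
        (mul_nonneg h.C0 (by positivity))
    _ = C * (1 / 2) ^ k := by
        rw [mul_assoc, ← mul_pow]; norm_num

lemma summable_term (p : ℝ≥0∞) [Fact (1 ≤ p)] {C : ℝ} {a : ℕ → α → ℝ} (h : D.Good C a) :
    Summable fun k => ‖M p μ (a k) * D.P p ^ k‖ := by
  refine Summable.of_nonneg_of_le (fun _ => norm_nonneg _) (norm_term p h) ?_
  exact (summable_geometric_of_lt_one (by norm_num) (by norm_num)).mul_left C

variable (D) in
/-- the series `∑ a_k P^k` -/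
noncomputable def Op (p : ℝ≥0∞) [Fact (1 ≤ p)] (a : ℕ → α → ℝ) : Lp ℝ p μ →L[ℝ] Lp ℝ p μ :=
  ∑' k, M p μ (a k) * D.P p ^ k

lemma hasSum_Op (p : ℝ≥0∞) [Fact (1 ≤ p)] {C : ℝ} {a : ℕ → α → ℝ} (h : D.Good C a) :
    HasSum (fun k => M p μ (a k) * D.P p ^ k) (D.Op p a) :=
  (summable_term p h).of_norm.hasSum

lemma hasSum_Op_apply (p : ℝ≥0∞) [Fact (1 ≤ p)] {C : ℝ} {a : ℕ → α → ℝ} (h : D.Good C a)
    (f : Lp ℝ p μ) : HasSum (fun k => M p μ (a k) ((D.P p ^ k) f)) (D.Op p a f) :=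
  (hasSum_Op p h).mapL (ContinuousLinearMap.apply ℝ (Lp ℝ p μ) f)

/-- nonnegative functions -/
lemma P_nonneg (p : ℝ≥0∞) [Fact (1 ≤ p)] {f : Lp ℝ p μ} (hf : 0 ≤ f) (k : ℕ) :
    0 ≤ (D.P p ^ k) f := by
  induction k with
  | zero => exact hf
  | succ k ih =>
    rw [pow_succ']
    show 0 ≤ D.P p ((D.P p ^ k) f)
    rw [← Lp.coeFn_nonneg] at ih ⊢
    have h1 := D.qθ.ae ih
    have h2 := D.qη.ae ih
    filter_upwards [D.P_coe p ((D.P p ^ k) f), h1, h2] with x h h1 h2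
    rw [h]
    have := D.a0; have := D.b0
    have h1' : 0 ≤ ((D.P p ^ k) f : α → ℝ) (D.θ x) := h1
    have h2' : 0 ≤ ((D.P p ^ k) f : α → ℝ) (D.η x) := h2
    show 0 ≤ D.W _ x
    unfold W
    positivity

lemma Op_nonneg (p : ℝ≥0∞) [Fact (1 ≤ p)] {C : ℝ} {a : ℕ → α → ℝ} (h : D.Good C a)
    (h0 : ∀ k x, 0 ≤ a k x) {f : Lp ℝ p μ} (hf : 0 ≤ f) : 0 ≤ D.Op p a f := by
  refine (hasSum_Op_apply p h f).nonneg fun k => ?_
  have h1 := D.P_nonneg p hf k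
  rw [← Lp.coeFn_nonneg] at h1 ⊢
  filter_upwards [h1, M_coe' p (h.Bd k) ((D.P p ^ k) f)] with x h1 h2
  rw [h2]
  exact mul_nonneg (h0 k x) h1

/-- consistency -/
lemma P_cons (p p' : ℝ≥0∞) [Fact (1 ≤ p)] [Fact (1 ≤ p')] {f : Lp ℝ p μ} {g : Lp ℝ p' μ}
    (hfg : (f : α → ℝ) =ᵐ[μ] g) (k : ℕ) :
    ((D.P p ^ k) f : α → ℝ) =ᵐ[μ] ((D.P p' ^ k) g : α → ℝ) := by
  induction k with
  | zero => exact hfg
  | succ k ih =>
    rw [pow_succ', pow_succ']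
    exact ((D.P_coe p _).trans (D.W_congr ih)).trans (D.P_coe p' _).symm

lemma Op_cons (p p' : ℝ≥0∞) [Fact (1 ≤ p)] [Fact (1 ≤ p')] {C : ℝ} {a : ℕ → α → ℝ}
    (h : D.Good C a) {f : Lp ℝ p μ} {g : Lp ℝ p' μ}
    (hfg : (f : α → ℝ) =ᵐ[μ] g) : (D.Op p a f : α → ℝ) =ᵐ[μ] (D.Op p' a g : α → ℝ) := by
  have hp : p ≠ 0 := by
    have : (1 : ℝ≥0∞) ≤ p := Fact.out
    intro h0; rw [h0] at this; simp at this
  have hp' : p' ≠ 0 := by
    have : (1 : ℝ≥0∞) ≤ p' := Fact.out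
    intro h0; rw [h0] at this; simp at this
  have h1 := (hasSum_Op_apply p h f).tendsto_sum_nat
  have h2 := (hasSum_Op_apply p' h g).tendsto_sum_nat
  have m1 := tendstoInMeasure_of_tendsto_Lp h1
  have m2 := tendstoInMeasure_of_tendsto_Lp h2
  have e : ∀ n : ℕ, ((∑ k ∈ Finset.range n, M p μ (a k) ((D.P p ^ k) f) : Lp ℝ p μ) : α → ℝ)
      =ᵐ[μ] ((∑ k ∈ Finset.range n, M p' μ (a k) ((D.P p' ^ k) g) : Lp ℝ p' μ) : α → ℝ) := by
    intro n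
    induction n with
    | zero =>
      simp only [Finset.sum_range_zero]
      exact (Lp.coeFn_zero ℝ p μ).trans (Lp.coeFn_zero ℝ p' μ).symm
    | succ n ih =>
      rw [Finset.sum_range_succ, Finset.sum_range_succ]
      filter_upwards [Lp.coeFn_add (∑ k ∈ Finset.range n, M p μ (a k) ((D.P p ^ k) f))
        (M p μ (a n) ((D.P p ^ n) f)),
        Lp.coeFn_add (∑ k ∈ Finset.range n, M p' μ (a k) ((D.P p' ^ k) g))
        (M p' μ (a n) ((D.P p' ^ n) g)), ih, M_coe' p (h.Bd n) ((D.P p ^ n) f),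
        M_coe' p' (h.Bd n) ((D.P p' ^ n) g), P_cons p p' hfg n] with x e1 e2 e3 e4 e5 e6
      rw [e1, e2, Pi.add_apply, Pi.add_apply, e3, e4, e5, e6]
  have m3 := m1.congr_left e
  exact tendstoInMeasure_ae_unique m3 m2

end Dila

end Pool.Agent.V11282.DW
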