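import Pool.Agent.V11282.DW.C

/-!
# Dilation walks: estimates on `L¹`, `L²`, `L^∞` and strong limits
-/

set_option autoImplicit false

open MeasureTheory Filter Topology
open scoped ENNReal NNReal

namespace Pool.Agent.V11282.DW

variable {α : Type} [MeasurableSpace α] {μ : Measure α}

instance : Fact ((1 : ℝ≥0∞) ≤ 1) := ⟨le_rfl⟩

lemma Bd.integrable {g : α → ℝ} (hg : Bd g) {f : α → ℝ} (hf : Integrable f μ) :
    Integrable (fun x => g x * f x) μ :=
  hf.bdd_mul hg.1.aestronglyMeasurable (Eventually.of_forall hg.2.choose_spec.2)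

namespace Dila

variable {D : Dila μ}

lemma Ppow_coe_abs (p : ℝ≥0∞) [Fact (1 ≤ p)] (f : Lp ℝ p μ) (k : ℕ) :
    ∀ᵐ x ∂μ, |((D.P p ^ k) f : α → ℝ) x| ≤ (D.W)^[k] (fun x => |f x|) x := by
  induction k with
  | zero => exact Eventually.of_forall fun x => le_rfl
  | succ k ih =>
    rw [pow_succ', Function.iterate_succ_apply']
    filter_upwards [D.P_coe p ((D.P p ^ k) f), D.qθ.ae ih, D.qη.ae ih] with x h h1 h2
    show |(D.P p ((D.P p ^ k) f) : α → ℝ) x| ≤ _
    rw [h]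
    have ha := D.a0; have hb := D.b0
    show |D.a * _ + D.b * _| ≤ D.a * _ + D.b * _
    refine (abs_add_le _ _).trans ?_
    rw [abs_mul, abs_mul, abs_of_pos D.a0, abs_of_pos D.b0]
    exact add_le_add (mul_le_mul_of_nonneg_left h1 ha.le) (mul_le_mul_of_nonneg_left h2 hb.le)

lemma int_Witer {g f : α → ℝ} (hg : DW.Bd g) (hi : ∀ x, g (D.θ x) = g x) (hf : Integrable f μ)
    (k : ℕ) : Integrable ((D.W)^[k] f) μ ∧
      ∫ x, g x * (D.W)^[k] f x ∂μ = ∫ x, g x * f x ∂μ := by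
  induction k with
  | zero => exact ⟨hf, rfl⟩
  | succ k ih =>
    rw [Function.iterate_succ_apply']
    have h1 := D.int_W (g := fun _ => (1 : ℝ)) (f := (D.W)^[k] f) (fun _ => rfl) (by simpa using ih.1)
    have h2 := D.int_W (g := g) (f := (D.W)^[k] f) hi (hg.integrable ih.1)
    exact ⟨by simpa using h1.1, by rw [h2.2, ih.2]⟩

/-- weighted integrals of `P ^ k f` -/
lemma int_Ppow {g : α → ℝ} (hg : DW.Bd g) (hi : ∀ x, g (D.θ x) = g x) (f : Lp ℝ 1 μ) (k : ℕ) :
    ∫ x, g x * ((D.P 1 ^ k) f : α → ℝ) x ∂μ = ∫ x, g x * f x ∂μ := by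
  induction k with
  | zero => rfl
  | succ k ih =>
    rw [← ih, pow_succ']
    have hint : Integrable ((D.P 1 ^ k) f : α → ℝ) μ := L1.integrable_coeFn _
    rw [← (D.int_W hi (hg.integrable hint)).2]
    apply integral_congr_ae
    filter_upwards [D.P_coe 1 ((D.P 1 ^ k) f)] with x h
    show g x * (D.P 1 ((D.P 1 ^ k) f) : α → ℝ) x = _
    rw [h]

lemma int_abs_Ppow {g : α → ℝ} (hg : DW.Bd g) (hi : ∀ x, g (D.θ x) = g x) (h0 : ∀ x, 0 ≤ g x)
    (f : Lp ℝ 1 μ) (k : ℕ) :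
    ∫ x, g x * |((D.P 1 ^ k) f : α → ℝ) x| ∂μ ≤ ∫ x, g x * |f x| ∂μ := by
  have hf : Integrable (fun x => |f x|) μ := (L1.integrable_coeFn f).abs
  obtain ⟨h1, h2⟩ := D.int_Witer hg hi hf k
  rw [← h2]
  refine integral_mono_ae (hg.integrable (L1.integrable_coeFn _).abs) (hg.integrable h1) ?_
  filter_upwards [D.Ppow_coe_abs 1 f k] with x hx
  exact mul_le_mul_of_nonneg_left hx (h0 x)

lemma Good.sum {C : ℝ} {a : ℕ → α → ℝ} (h : D.Good C a) (x : α) : Summable fun k => a k x := by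
  refine Summable.of_norm_bounded (g := fun k => C * (1 / 4) ^ k)
    ((summable_geometric_of_lt_one (by norm_num) (by norm_num)).mul_left C) (fun k => h.bd k x)

lemma Good.sum_le {C : ℝ} {a : ℕ → α → ℝ} (h : D.Good C a) (x : α) :
    |∑' k, a k x| ≤ C * (4 / 3) := by
  have hs : Summable fun k : ℕ => C * (1 / 4 : ℝ) ^ k :=
    (summable_geometric_of_lt_one (by norm_num) (by norm_num)).mul_left C
  have h1 := tsum_of_norm_bounded (f := fun k => a k x) hs.hasSum (fun k => h.bd k x)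
  rw [Real.norm_eq_abs, tsum_mul_left, tsum_geometric_of_lt_one (by norm_num) (by norm_num)] at h1
  norm_num at h1 ⊢
  exact h1

/-- the functional `f ↦ ∫ g f` along a series -/
lemma int_Op {C : ℝ} {a : ℕ → α → ℝ} (h : D.Good C a) {g : α → ℝ} (hg : DW.Bd g)
    (hi : ∀ x, g (D.θ x) = g x) (f : Lp ℝ 1 μ) :
    ∫ x, g x * (D.Op 1 a f : α → ℝ) x ∂μ = ∫ x, (g x * ∑' k, a k x) * f x ∂μ := by
  have hfi : Integrable (f : α → ℝ) μ := L1.integrable_coeFn f
  have e0 : ∀ u : Lp ℝ 1 μ, ∫ x, g x * u x ∂μ = L1.integralCLM (E := ℝ) (M 1 μ g u) := by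
    intro u
    rw [← L1.integral_eq, L1.integral_eq_integral]
    apply integral_congr_ae
    filter_upwards [M_coe' 1 hg u] with x hx
    rw [hx]
  have h1 : HasSum (fun k => ∫ x, g x * (M 1 μ (a k) ((D.P 1 ^ k) f) : α → ℝ) x ∂μ)
      (∫ x, g x * (D.Op 1 a f : α → ℝ) x ∂μ) := by
    simp only [e0]
    exact ((hasSum_Op_apply 1 h f).mapL (M 1 μ g)).mapL (L1.integralCLM (E := ℝ) (μ := μ))
  have h2 : ∀ k, ∫ x, g x * (M 1 μ (a k) ((D.P 1 ^ k) f) : α → ℝ) x ∂μ =
      ∫ x, (g x * a k x) * f x ∂μ := by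
    intro k
    rw [← int_Ppow (hg.mul (h.Bd k)) (fun x => by rw [hi, h.inv]) f k]
    apply integral_congr_ae
    filter_upwards [M_coe' 1 (h.Bd k) ((D.P 1 ^ k) f)] with x hx
    rw [hx]; ring
  simp only [h2] at h1
  refine h1.unique ?_
  obtain ⟨G, hG, hGb⟩ := hg.2
  have h3 : ∀ k, Integrable (fun x => (g x * a k x) * f x) μ := fun k =>
    (hg.mul (h.Bd k)).integrable hfi
  have h4 : Summable fun k => ∫ x, ‖(g x * a k x) * f x‖ ∂μ := by
    refine Summable.of_nonneg_of_le (fun _ => integral_nonneg fun _ => norm_nonneg _)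
      (f := fun k => (G * C * ∫ x, |f x| ∂μ) * (1 / 4) ^ k) (fun k => ?_)
      ((summable_geometric_of_lt_one (by norm_num) (by norm_num)).mul_left _)
    calc ∫ x, ‖(g x * a k x) * f x‖ ∂μ ≤ ∫ x, (G * (C * (1 / 4) ^ k)) * |f x| ∂μ := by
          refine integral_mono (h3 k).norm (hfi.abs.const_mul _) fun x => ?_
          show ‖(g x * a k x) * f x‖ ≤ _
          rw [norm_mul, norm_mul, Real.norm_eq_abs, Real.norm_eq_abs, Real.norm_eq_abs]
          exact mul_le_mul_of_nonneg_right (mul_le_mul (hGb x) (h.bd k x) (abs_nonneg _) hG)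
            (abs_nonneg _)
      _ = (G * C * ∫ x, |f x| ∂μ) * (1 / 4) ^ k := by
          rw [integral_const_mul]; ring
  have h5 := hasSum_integral_of_summable_integral_norm h3 h4
  have e : ∫ x, ∑' k, (g x * a k x) * f x ∂μ = ∫ x, (g x * ∑' k, a k x) * f x ∂μ := by
    apply integral_congr_ae
    refine Eventually.of_forall fun x => ?_
    show ∑' k, (g x * a k x) * f x = (g x * ∑' k, a k x) * f x
    rw [tsum_mul_right, tsum_mul_left]
  rw [e] at h5
  exact h5

/-- weighted `L¹` estimate -/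
lemma norm_Op_le {C : ℝ} {a : ℕ → α → ℝ} (h : D.Good C a) (h0 : ∀ k x, 0 ≤ a k x) (f : Lp ℝ 1 μ) :
    ‖D.Op 1 a f‖ ≤ ∫ x, (∑' k, a k x) * |f x| ∂μ := by
  have hfi : Integrable (f : α → ℝ) μ := L1.integrable_coeFn f
  have hs := hasSum_Op_apply 1 h f
  have h1 : ∀ k, ‖M 1 μ (a k) ((D.P 1 ^ k) f)‖ ≤ ∫ x, a k x * |f x| ∂μ := by
    intro k
    rw [L1.norm_eq_integral_norm]
    refine le_trans (le_of_eq ?_) (int_abs_Ppow (h.Bd k) (h.inv k) (h0 k) f k)
    apply integral_congr_ae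
    filter_upwards [M_coe' 1 (h.Bd k) ((D.P 1 ^ k) f)] with x hx
    rw [hx, Real.norm_eq_abs, abs_mul, abs_of_nonneg (h0 k x)]
  have h3 : ∀ k, Integrable (fun x => a k x * |f x|) μ := fun k => (h.Bd k).integrable hfi.abs
  have h4 : Summable fun k => ∫ x, ‖a k x * |f x|‖ ∂μ := by
    refine Summable.of_nonneg_of_le (fun _ => integral_nonneg fun _ => norm_nonneg _)
      (f := fun k => (C * ∫ x, |f x| ∂μ) * (1 / 4) ^ k) (fun k => ?_)
      ((summable_geometric_of_lt_one (by norm_num) (by norm_num)).mul_left _)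
    calc ∫ x, ‖a k x * |f x|‖ ∂μ ≤ ∫ x, (C * (1 / 4) ^ k) * |f x| ∂μ := by
          refine integral_mono (h3 k).norm (hfi.abs.const_mul _) fun x => ?_
          show ‖a k x * |f x|‖ ≤ _
          rw [norm_mul, Real.norm_eq_abs, Real.norm_eq_abs, abs_abs]
          exact mul_le_mul_of_nonneg_right (h.bd k x) (abs_nonneg _)
      _ = (C * ∫ x, |f x| ∂μ) * (1 / 4) ^ k := by
          rw [integral_const_mul]; ring
  have h5 := hasSum_integral_of_summable_integral_norm h3 h4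
  have e : ∫ x, ∑' k, a k x * |f x| ∂μ = ∫ x, (∑' k, a k x) * |f x| ∂μ := by
    apply integral_congr_ae
    refine Eventually.of_forall fun x => ?_
    show ∑' k, a k x * |f x| = (∑' k, a k x) * |f x|
    rw [tsum_mul_right]
  rw [e] at h5
  have h6 : Summable fun k => ‖M 1 μ (a k) ((D.P 1 ^ k) f)‖ :=
    Summable.of_nonneg_of_le (fun _ => norm_nonneg _) h1 h5.summable
  rw [← hs.tsum_eq]
  exact (norm_tsum_le_tsum_norm h6).trans (hasSum_le h1 h6.hasSum h5)

end Dila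

end Pool.Agent.V11282.DW
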