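import Pool.Agent.V11282.DW.D

/-!
# Dilation walks: `L^∞`, `L²` and strong limits
-/

set_option autoImplicit false

open MeasureTheory Filter Topology
open scoped ENNReal NNReal RealInnerProductSpace

namespace Pool.Agent.V11282.DW

variable {α : Type} [MeasurableSpace α] {μ : Measure α}

lemma ae_bound_top (f : Lp ℝ ∞ μ) : ∀ᵐ x ∂μ, |f x| ≤ ‖f‖ := by
  filter_upwards [ae_le_eLpNormEssSup (f := (f : α → ℝ)) (μ := μ)] with x hx
  have h1 : ‖f‖ₑ = eLpNormEssSup (f : α → ℝ) μ := by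
    rw [Lp.enorm_def, eLpNorm_exponent_top]
  rw [← h1] at hx
  have h2 := ENNReal.toReal_mono (by simp) hx
  simpa using h2

lemma norm_top_le {f : Lp ℝ ∞ μ} {C : ℝ} (hC : 0 ≤ C) (h : ∀ᵐ x ∂μ, |f x| ≤ C) : ‖f‖ ≤ C := by
  rw [Lp.norm_def, eLpNorm_exponent_top]
  have := eLpNormEssSup_le_of_ae_bound (f := (f : α → ℝ)) h
  exact ENNReal.toReal_le_of_le_ofReal hC this

lemma coeFn_finsum (p : ℝ≥0∞) {ι : Type} (S : Finset ι) (f : ι → Lp ℝ p μ) :
    ((∑ i ∈ S, f i : Lp ℝ p μ) : α → ℝ) =ᵐ[μ] fun x => ∑ i ∈ S, f i x := by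
  classical
  induction S using Finset.induction_on with
  | empty => simp only [Finset.sum_empty]; exact Lp.coeFn_zero ℝ p μ
  | insert i S hi ih =>
    rw [Finset.sum_insert hi]
    filter_upwards [Lp.coeFn_add (f i) (∑ j ∈ S, f j), ih] with x h1 h2
    rw [h1, Pi.add_apply, h2, Finset.sum_insert hi]

/-- strong continuity of multiplication -/
lemma M_tendsto (p : ℝ≥0∞) [Fact (1 ≤ p)] (hp : p ≠ ∞) {ι : Type} {l : Filter ι}
    [l.IsCountablyGenerated] {G : ι → α → ℝ} {g : α → ℝ} {C : ℝ} (hC : 0 ≤ C)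
    (hG : ∀ᶠ r in l, Measurable (G r) ∧ ∀ x, |G r x| ≤ C) (hg : Measurable g) (hb : ∀ x, |g x| ≤ C)
    (hlim : ∀ x, Tendsto (fun r => G r x) l (𝓝 (g x))) (w : Lp ℝ p μ) :
    Tendsto (fun r => M p μ (G r) w) l (𝓝 (M p μ g w)) := by
  have h1 : (1 : ℝ≥0∞) ≤ p := Fact.out
  have hp0 : p ≠ 0 := by intro h0; rw [h0] at h1; simp at h1
  have hpr : 0 < p.toReal := ENNReal.toReal_pos hp0 hp
  rw [Lp.tendsto_Lp_iff_tendsto_eLpNorm']
  have e : ∀ᶠ r in l, eLpNorm ((M p μ (G r) w : α → ℝ) - (M p μ g w : α → ℝ)) p μ =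
      (∫⁻ x, ‖(G r x - g x) * w x‖ₑ ^ p.toReal ∂μ) ^ (1 / p.toReal) := by
    filter_upwards [hG] with r hr
    rw [eLpNorm_eq_lintegral_rpow_enorm_toReal hp0 hp]
    congr 1
    apply lintegral_congr_ae
    filter_upwards [M_coe p hr.1 hr.2 w, M_coe p hg hb w] with x h2 h3
    rw [Pi.sub_apply, h2, h3, ← sub_mul]
  rw [tendsto_congr' e]
  have h0 : (0 : ℝ≥0∞) = (0 : ℝ≥0∞) ^ (1 / p.toReal) := by
    rw [ENNReal.zero_rpow_of_pos (by positivity)]
  rw [h0]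
  refine (ENNReal.continuous_rpow_const.tendsto 0).comp ?_
  have hz : (0 : ℝ≥0∞) = ∫⁻ _ : α, 0 ∂μ := by simp
  rw [hz]
  refine tendsto_lintegral_filter_of_dominated_convergence'
    (fun x => ‖(2 * C) * w x‖ₑ ^ p.toReal) ?_ ?_ ?_ ?_
  · filter_upwards [hG] with r hr
    exact (((hr.1.sub hg).aemeasurable.mul (Lp.aestronglyMeasurable w).aemeasurable).enorm).pow_const _
  · filter_upwards [hG] with r hr
    refine Eventually.of_forall fun x => ?_
    refine ENNReal.rpow_le_rpow ?_ hpr.le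
    rw [enorm_le_iff_norm_le, norm_mul, norm_mul]
    refine mul_le_mul_of_nonneg_right ?_ (norm_nonneg _)
    rw [Real.norm_eq_abs, Real.norm_eq_abs, abs_of_nonneg (by positivity : (0 : ℝ) ≤ 2 * C)]
    calc |G r x - g x| ≤ |G r x| + |g x| := abs_sub _ _
      _ ≤ C + C := add_le_add (hr.2 x) (hb x)
      _ = 2 * C := by ring
  · have hw : MemLp (fun x => (2 * C) * w x) p μ := (Lp.memLp w).const_mul _
    have := hw.2
    rw [eLpNorm_eq_lintegral_rpow_enorm_toReal hp0 hp] at this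
    intro hcon
    rw [hcon, ENNReal.top_rpow_of_pos (by positivity)] at this
    exact absurd this (by simp)
  · refine Eventually.of_forall fun x => ?_
    have h2 : Tendsto (fun r => (G r x - g x) * w x) l (𝓝 0) := by
      have := ((hlim x).sub_const (g x)).mul_const (w x)
      simpa using this
    have h3 : Tendsto (fun r => ‖(G r x - g x) * w x‖ₑ ^ p.toReal) l (𝓝 (‖(0 : ℝ)‖ₑ ^ p.toReal)) :=
      ((ENNReal.continuous_rpow_const.comp continuous_enorm).tendsto 0).comp h2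
    simpa [ENNReal.zero_rpow_of_pos hpr] using h3

namespace Dila

variable {D : Dila μ}

lemma Ppow_top (f : Lp ℝ ∞ μ) (k : ℕ) : ∀ᵐ x ∂μ, |((D.P ∞ ^ k) f : α → ℝ) x| ≤ ‖f‖ := by
  induction k with
  | zero => exact ae_bound_top f
  | succ k ih =>
    rw [pow_succ']
    filter_upwards [D.P_coe ∞ ((D.P ∞ ^ k) f), D.qθ.ae ih, D.qη.ae ih] with x h h1 h2
    show |(D.P ∞ ((D.P ∞ ^ k) f) : α → ℝ) x| ≤ _
    rw [h]
    have ha := D.a0; have hb := D.b0
    show |D.a * _ + D.b * _| ≤ _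
    refine (abs_add_le _ _).trans ?_
    rw [abs_mul, abs_mul, abs_of_pos D.a0, abs_of_pos D.b0]
    calc _ ≤ D.a * ‖f‖ + D.b * ‖f‖ := add_le_add (mul_le_mul_of_nonneg_left h1 ha.le)
          (mul_le_mul_of_nonneg_left h2 hb.le)
      _ = ‖f‖ := by rw [← add_mul, D.ab, one_mul]

lemma Op_top {C : ℝ} {a : ℕ → α → ℝ} (h : D.Good C a) (h0 : ∀ k x, 0 ≤ a k x)
    (h1 : ∀ x, ∑' k, a k x ≤ 1) (f : Lp ℝ ∞ μ) : ‖D.Op ∞ a f‖ ≤ ‖f‖ := by
  have ht := (hasSum_Op_apply ∞ h f).tendsto_sum_nat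
  refine le_of_tendsto ht.norm (Eventually.of_forall fun n => ?_)
  refine norm_top_le (norm_nonneg _) ?_
  have hP : ∀ᵐ x ∂μ, ∀ k, |((D.P ∞ ^ k) f : α → ℝ) x| ≤ ‖f‖ := ae_all_iff.2 (D.Ppow_top f)
  have hM : ∀ᵐ x ∂μ, ∀ k, (M ∞ μ (a k) ((D.P ∞ ^ k) f) : α → ℝ) x =
      a k x * ((D.P ∞ ^ k) f : α → ℝ) x := ae_all_iff.2 fun k => M_coe' ∞ (h.Bd k) _
  filter_upwards [coeFn_finsum ∞ (Finset.range n) (fun k => M ∞ μ (a k) ((D.P ∞ ^ k) f)), hP, hM]
    with x e1 e2 e3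
  rw [e1]
  calc |∑ k ∈ Finset.range n, (M ∞ μ (a k) ((D.P ∞ ^ k) f) : α → ℝ) x|
      ≤ ∑ k ∈ Finset.range n, |(M ∞ μ (a k) ((D.P ∞ ^ k) f) : α → ℝ) x| :=
        Finset.abs_sum_le_sum_abs _ _
    _ ≤ ∑ k ∈ Finset.range n, a k x * ‖f‖ := by
        refine Finset.sum_le_sum fun k _ => ?_
        rw [e3, abs_mul, abs_of_nonneg (h0 k x)]
        exact mul_le_mul_of_nonneg_left (e2 k) (h0 k x)
    _ = (∑ k ∈ Finset.range n, a k x) * ‖f‖ := by rw [Finset.sum_mul]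
    _ ≤ (∑' k, a k x) * ‖f‖ := mul_le_mul_of_nonneg_right
        ((h.sum x).sum_le_tsum _ (fun k _ => h0 k x)) (norm_nonneg _)
    _ ≤ 1 * ‖f‖ := mul_le_mul_of_nonneg_right (h1 x) (norm_nonneg _)
    _ = ‖f‖ := one_mul _

/-- strong limits of series -/
lemma Op_tendsto (p : ℝ≥0∞) [Fact (1 ≤ p)] (hp : p ≠ ∞) {ι : Type} {l : Filter ι}
    [l.IsCountablyGenerated] {A : ι → ℕ → α → ℝ} {a : ℕ → α → ℝ} {C : ℝ}
    (hA : ∀ᶠ r in l, D.Good C (A r)) (ha : D.Good C a)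
    (hlim : ∀ k x, Tendsto (fun r => A r k x) l (𝓝 (a k x))) (w : Lp ℝ p μ) :
    Tendsto (fun r => D.Op p (A r) w) l (𝓝 (D.Op p a w)) := by
  have e1 : ∀ᶠ r in l, D.Op p (A r) w = ∑' k, M p μ (A r k) ((D.P p ^ k) w) := by
    filter_upwards [hA] with r hr
    exact (hasSum_Op_apply p hr w).tsum_eq.symm
  rw [tendsto_congr' e1, ← (hasSum_Op_apply p ha w).tsum_eq]
  refine tendsto_tsum_of_dominated_convergence (bound := fun k => C * (1 / 2) ^ k * ‖w‖) ?_ ?_ ?_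
  · exact ((summable_geometric_of_lt_one (by norm_num) (by norm_num)).mul_left C).mul_right _
  · intro k
    refine M_tendsto p hp (mul_nonneg ha.C0 (by positivity : (0 : ℝ) ≤ (1 / 4) ^ k)) ?_ (ha.meas k)
      (ha.bd k) (hlim k) _
    filter_upwards [hA] with r hr
    exact ⟨hr.meas k, hr.bd k⟩
  · filter_upwards [hA] with r hr
    intro k
    have := norm_term p hr k
    exact ((M p μ (A r k) * D.P p ^ k).le_opNorm w).trans
      (mul_le_mul_of_nonneg_right this (norm_nonneg _))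

/-! ### `L²` -/

lemma inner_eq (f g : Lp ℝ 2 μ) : ⟪f, g⟫ = ∫ x, f x * g x ∂μ := by
  rw [L2.inner_def]
  apply integral_congr_ae
  refine Eventually.of_forall fun x => ?_
  simp [mul_comm]

lemma int_mul (f g : Lp ℝ 2 μ) : Integrable (fun x => f x * g x) μ := by
  have := L2.integrable_inner (𝕜 := ℝ) f g
  refine this.congr (Eventually.of_forall fun x => ?_)
  simp [mul_comm]

lemma P_symm (f g : Lp ℝ 2 μ) : ⟪D.P 2 f, g⟫ = ⟪f, D.P 2 g⟫ := by
  have hθη : ∀ f g : Lp ℝ 2 μ, Integrable (fun x => f x * g (D.η x)) μ ∧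
      Integrable (fun x => f (D.θ x) * g x) μ ∧
      ∫ x, f (D.θ x) * g x ∂μ = D.c⁻¹ * ∫ x, f x * g (D.η x) ∂μ := by
    intro f g
    have hF : Integrable (fun x => f x * g (D.η x)) μ := by
      have h1 : (D.Cη 2 g : α → ℝ) =ᵐ[μ] g ∘ D.η := cmp_coe 2 D.η D.mη D.c D.c0 D.map_η g
      refine (int_mul f (D.Cη 2 g)).congr ?_
      filter_upwards [h1] with x hx
      rw [hx]; rfl
    have hθ : Integrable (fun x => f x * g (D.η x)) (μ.map D.θ) := by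
      rw [D.map_θ]; exact hF.smul_measure ENNReal.ofReal_ne_top
    have iθ := hθ.comp_measurable D.mθ
    have e : (fun x => f x * g (D.η x)) ∘ D.θ = fun x => f (D.θ x) * g x := by
      ext x; simp only [Function.comp, D.ηθ]
    rw [e] at iθ
    refine ⟨hF, iθ, ?_⟩
    rw [← e]
    show ∫ x, (fun x => f x * g (D.η x)) (D.θ x) ∂μ = _
    rw [← integral_map D.mθ.aemeasurable hθ.1, D.map_θ, integral_smul_measure,
      ENNReal.toReal_ofReal (inv_nonneg.2 D.c0.le), smul_eq_mul]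
  have hc0 := D.c0.ne'
  have h1 : D.a * D.c⁻¹ = D.b := by rw [D.abc]; field_simp
  have key : ∀ f g : Lp ℝ 2 μ, ⟪D.P 2 f, g⟫ =
      D.b * ∫ x, f x * g (D.η x) ∂μ + D.b * ∫ x, g x * f (D.η x) ∂μ := by
    intro f g
    obtain ⟨i1, i2, e1⟩ := hθη f g
    obtain ⟨i3, -, -⟩ := hθη g f
    rw [inner_eq]
    have e2 : ∫ x, (D.P 2 f : α → ℝ) x * g x ∂μ =
        ∫ x, (D.a * (f (D.θ x) * g x) + D.b * (g x * f (D.η x))) ∂μ := by
      apply integral_congr_ae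
      filter_upwards [D.P_coe 2 f] with x hx
      rw [hx]; unfold W; ring
    rw [e2, integral_add (i2.const_mul _) (i3.const_mul _), integral_const_mul,
      integral_const_mul, e1, ← mul_assoc, h1]
  rw [key f g, real_inner_comm, key g f, add_comm]

lemma Ppow_symm (k : ℕ) (f g : Lp ℝ 2 μ) : ⟪(D.P 2 ^ k) f, g⟫ = ⟪f, (D.P 2 ^ k) g⟫ := by
  induction k generalizing f g with
  | zero => rfl
  | succ k ih =>
    conv_lhs => rw [pow_succ']
    conv_rhs => rw [pow_succ]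
    show ⟪D.P 2 ((D.P 2 ^ k) f), g⟫ = ⟪f, (D.P 2 ^ k) (D.P 2 g)⟫
    rw [P_symm, ih]

lemma M_symm {g : α → ℝ} (hg : DW.Bd g) (u w : Lp ℝ 2 μ) : ⟪M 2 μ g u, w⟫ = ⟪u, M 2 μ g w⟫ := by
  rw [inner_eq, inner_eq]
  apply integral_congr_ae
  filter_upwards [M_coe' 2 hg u, M_coe' 2 hg w] with x h1 h2
  rw [h1, h2]; ring

lemma Op_symm {C : ℝ} {a : ℕ → α → ℝ} (h : D.Good C a) (f g : Lp ℝ 2 μ) :
    ⟪D.Op 2 a f, g⟫ = ⟪f, D.Op 2 a g⟫ := by
  have h1 : HasSum (fun k => ⟪g, M 2 μ (a k) ((D.P 2 ^ k) f)⟫) ⟪g, D.Op 2 a f⟫ :=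
    (hasSum_Op_apply 2 h f).mapL (innerSL ℝ g)
  have h2 : HasSum (fun k => ⟪f, M 2 μ (a k) ((D.P 2 ^ k) g)⟫) ⟪f, D.Op 2 a g⟫ :=
    (hasSum_Op_apply 2 h g).mapL (innerSL ℝ f)
  rw [real_inner_comm]
  refine h1.unique ?_
  convert h2 using 2 with k
  rw [← M_symm (h.Bd k), real_inner_comm, Ppow_symm]
  have := M_Ppow (D := D) 2 (h.Bd k) (h.inv k) k
  have h3 : (D.P 2 ^ k) (M 2 μ (a k) g) = M 2 μ (a k) ((D.P 2 ^ k) g) := by
    have := congrArg (fun T : Lp ℝ 2 μ →L[ℝ] Lp ℝ 2 μ => T g) this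
    exact this.symm
  rw [h3]

/-- the form estimate -/
lemma Op_form {C : ℝ} {a : ℕ → α → ℝ} (h : D.Good C a) (h0 : ∀ k x, 0 ≤ a k x) (f : Lp ℝ 2 μ) :
    ⟪f, D.Op 2 a f⟫ ≤ ∫ x, (∑' k, a k x * D.ρ ^ k) * (f x * f x) ∂μ := by
  have h1 : HasSum (fun k => ⟪f, M 2 μ (a k) ((D.P 2 ^ k) f)⟫) ⟪f, D.Op 2 a f⟫ :=
    (hasSum_Op_apply 2 h f).mapL (innerSL ℝ f)
  have hff := int_mul f f
  have hρ := D.ρ0
  have hρ1 := D.ρ_lt
  have term : ∀ k, ⟪f, M 2 μ (a k) ((D.P 2 ^ k) f)⟫ ≤ ∫ x, (a k x * D.ρ ^ k) * (f x * f x) ∂μ := by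
    intro k
    set r : α → ℝ := fun x => √(a k x) with hr
    have hrB : DW.Bd r := by
      refine ⟨(h.meas k).sqrt, √(C * (1 / 4) ^ k), Real.sqrt_nonneg _, fun x => ?_⟩
      rw [abs_of_nonneg (Real.sqrt_nonneg _)]
      exact Real.sqrt_le_sqrt ((le_abs_self _).trans (h.bd k x))
    have hri : ∀ x, r (D.θ x) = r x := fun x => by simp only [hr, h.inv]
    have e1 : M 2 μ (a k) = M 2 μ r * M 2 μ r := by
      rw [M_mul 2 hrB hrB]
      congr 1
      ext x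
      exact (Real.mul_self_sqrt (h0 k x)).symm
    have e2 : M 2 μ (a k) ((D.P 2 ^ k) f) = M 2 μ r ((D.P 2 ^ k) (M 2 μ r f)) := by
      rw [e1]
      show M 2 μ r (M 2 μ r ((D.P 2 ^ k) f)) = _
      have := congrArg (fun T : Lp ℝ 2 μ →L[ℝ] Lp ℝ 2 μ => T f) (M_Ppow (D := D) 2 hrB hri k)
      exact congrArg _ this
    rw [e2, ← M_symm hrB]
    have e3 : ‖M 2 μ r f‖ * ‖M 2 μ r f‖ = ∫ x, a k x * (f x * f x) ∂μ := by
      rw [← real_inner_self_eq_norm_mul_norm, inner_eq]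
      apply integral_congr_ae
      filter_upwards [M_coe' 2 hrB f] with x hx
      rw [hx]
      have := Real.mul_self_sqrt (h0 k x)
      calc r x * f x * (r x * f x) = (r x * r x) * (f x * f x) := by ring
        _ = _ := by rw [hr]; simp only; rw [this]
    have e4 : ‖(D.P 2 ^ k) (M 2 μ r f)‖ ≤ D.ρ ^ k * ‖M 2 μ r f‖ := by
      refine ((D.P 2 ^ k).le_opNorm _).trans (mul_le_mul_of_nonneg_right ?_ (norm_nonneg _))
      rcases Nat.eq_zero_or_pos k with hk | hk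
      · rw [hk, pow_zero, pow_zero]; exact ContinuousLinearMap.norm_id_le
      · exact (norm_pow_le' _ hk).trans (pow_le_pow_left₀ (norm_nonneg _) D.P_norm2 k)
    calc ⟪M 2 μ r f, (D.P 2 ^ k) (M 2 μ r f)⟫ ≤ ‖M 2 μ r f‖ * ‖(D.P 2 ^ k) (M 2 μ r f)‖ :=
          real_inner_le_norm _ _
      _ ≤ ‖M 2 μ r f‖ * (D.ρ ^ k * ‖M 2 μ r f‖) := mul_le_mul_of_nonneg_left e4 (norm_nonneg _)
      _ = D.ρ ^ k * (‖M 2 μ r f‖ * ‖M 2 μ r f‖) := by ring
      _ = ∫ x, (a k x * D.ρ ^ k) * (f x * f x) ∂μ := by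
          rw [e3, ← integral_const_mul]
          apply integral_congr_ae
          exact Eventually.of_forall fun x => by ring
  have h3 : ∀ k, Integrable (fun x => (a k x * D.ρ ^ k) * (f x * f x)) μ := fun k =>
    ((h.Bd k).integrable (hff.const_mul (D.ρ ^ k))).congr (Eventually.of_forall fun x => by ring)
  have h4 : Summable fun k => ∫ x, ‖(a k x * D.ρ ^ k) * (f x * f x)‖ ∂μ := by
    refine Summable.of_nonneg_of_le (fun _ => integral_nonneg fun _ => norm_nonneg _)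
      (f := fun k => (C * ∫ x, f x * f x ∂μ) * (1 / 4) ^ k) (fun k => ?_)
      ((summable_geometric_of_lt_one (by norm_num) (by norm_num)).mul_left _)
    calc ∫ x, ‖(a k x * D.ρ ^ k) * (f x * f x)‖ ∂μ ≤ ∫ x, (C * (1 / 4) ^ k) * (f x * f x) ∂μ := by
          refine integral_mono (h3 k).norm (hff.const_mul _) fun x => ?_
          show ‖(a k x * D.ρ ^ k) * (f x * f x)‖ ≤ _
          rw [norm_mul, norm_mul, Real.norm_eq_abs, Real.norm_eq_abs, Real.norm_eq_abs,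
            abs_of_nonneg (mul_self_nonneg (f x)), abs_of_nonneg (pow_nonneg hρ k)]
          refine mul_le_mul_of_nonneg_right ?_ (mul_self_nonneg _)
          calc |a k x| * D.ρ ^ k ≤ |a k x| * 1 :=
                mul_le_mul_of_nonneg_left (pow_le_one₀ hρ hρ1.le) (abs_nonneg _)
            _ ≤ _ := by rw [mul_one]; exact h.bd k x
      _ = (C * ∫ x, f x * f x ∂μ) * (1 / 4) ^ k := by
          rw [integral_const_mul]; ring
  have h5 := hasSum_integral_of_summable_integral_norm h3 h4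
  have e : ∫ x, ∑' k, (a k x * D.ρ ^ k) * (f x * f x) ∂μ =
      ∫ x, (∑' k, a k x * D.ρ ^ k) * (f x * f x) ∂μ := by
    apply integral_congr_ae
    refine Eventually.of_forall fun x => ?_
    show ∑' k, (a k x * D.ρ ^ k) * (f x * f x) = _
    rw [tsum_mul_right]
  rw [e] at h5
  exact hasSum_le term h1 h5

end Dila

end Pool.Agent.V11282.DW
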