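import Pool.Agent.V11282.DW.F

/-!
# Dilation walks: the semigroup and the resolvent
-/

set_option autoImplicit false

open MeasureTheory Filter Topology
open scoped ENNReal NNReal RealInnerProductSpace

namespace Pool.Agent.V11282.DW

variable {α : Type} [MeasurableSpace α] {μ : Measure α}

lemma M_smul (p : ℝ≥0∞) [Fact (1 ≤ p)] (c : ℝ) {g : α → ℝ} (hg : Bd g) :
    M p μ (fun x => c * g x) = c • M p μ g := by
  have hc : Bd (fun _ : α => c) := ⟨measurable_const, |c|, abs_nonneg _, fun _ => le_rfl⟩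
  ext1 f
  apply Lp.ext
  refine EventuallyEq.trans ?_ (Lp.coeFn_smul c (M p μ g f)).symm
  filter_upwards [M_coe' p hg f, M_coe' p (hc.mul hg) f] with x h1 h2
  rw [Pi.smul_apply, h1, h2, smul_eq_mul, mul_assoc]

namespace Dila

variable {D : Dila μ}

lemma M_Op (p : ℝ≥0∞) [Fact (1 ≤ p)] {C : ℝ} {a : ℕ → α → ℝ} (h : D.Good C a) {g : α → ℝ}
    (hg : DW.Bd g) : M p μ g * D.Op p a = D.Op p (fun k x => g x * a k x) := by
  have h1 := (hasSum_Op p h).mul_left (M p μ g)
  rw [← h1.tsum_eq]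
  unfold Op
  congr 1
  ext1 k
  rw [← mul_assoc, M_mul p hg (h.Bd k)]

/-! ### the semigroup -/

variable (D) in
/-- the coefficients of the semigroup -/
noncomputable def cc (t : ℝ) (k : ℕ) (x : α) : ℝ :=
  Real.exp (-(t * D.v x)) * ((t * D.v x) ^ k / (k.factorial : ℝ)) * (1 / 4) ^ k

lemma cc_nonneg {t : ℝ} (ht : 0 ≤ t) (k : ℕ) (x : α) : 0 ≤ D.cc t k x := by
  have := D.v0 x
  unfold cc; positivity

lemma cc_good {t : ℝ} (ht : 0 ≤ t) : D.Good 1 (D.cc t) where
  C0 := zero_le_one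
  meas k := by
    have := D.mv
    unfold cc
    fun_prop
  inv k x := by unfold cc; rw [D.vθ]
  bd k x := by
    rw [abs_of_nonneg (cc_nonneg ht k x)]
    unfold cc
    refine mul_le_mul_of_nonneg_right ?_ (by positivity)
    have hv := D.v0 x
    have h1 := Real.pow_div_factorial_le_exp (t * D.v x) (by positivity) k
    calc Real.exp (-(t * D.v x)) * ((t * D.v x) ^ k / (k.factorial : ℝ))
        ≤ Real.exp (-(t * D.v x)) * Real.exp (t * D.v x) :=
          mul_le_mul_of_nonneg_left h1 (Real.exp_pos _).le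
      _ = 1 := by rw [← Real.exp_add]; simp

lemma cc_sum (t r : ℝ) (x : α) :
    HasSum (fun k => D.cc t k x * r ^ k) (Real.exp (-(t * D.v x)) * Real.exp (t * D.v x * (r / 4))) := by
  have h := NormedSpace.expSeries_div_hasSum_exp (𝔸 := ℝ) (t * D.v x * (r / 4))
  rw [← Real.exp_eq_exp_ℝ] at h
  have e : (fun k => D.cc t k x * r ^ k) = fun k =>
      Real.exp (-(t * D.v x)) * ((t * D.v x * (r / 4)) ^ k / (k.factorial : ℝ)) := by
    ext k
    unfold cc
    rw [mul_pow (t * D.v x) (r / 4), div_pow r 4, one_div, inv_pow]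
    ring
  rw [e]
  exact h.mul_left (Real.exp (-(t * D.v x)))

lemma cc_tsum (t : ℝ) (x : α) : ∑' k, D.cc t k x = Real.exp (-(t * ((3 / 4) * D.v x))) := by
  have h := (cc_sum (D := D) t 1 x).tsum_eq
  simp only [one_pow, mul_one] at h
  rw [h, ← Real.exp_add]
  congr 1
  ring

lemma cc_tsum_ρ (t : ℝ) (x : α) :
    ∑' k, D.cc t k x * D.ρ ^ k = Real.exp (-(t * ((1 - D.ρ / 4) * D.v x))) := by
  rw [(cc_sum (D := D) t D.ρ x).tsum_eq, ← Real.exp_add]
  congr 1
  ring

variable (D) in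
/-- the semigroup -/
noncomputable def U (p : ℝ≥0∞) [Fact (1 ≤ p)] (t : ℝ) : Lp ℝ p μ →L[ℝ] Lp ℝ p μ := D.Op p (D.cc t)

lemma U_zero (p : ℝ≥0∞) [Fact (1 ≤ p)] : D.U p 0 = 1 := by
  have h := hasSum_Op p (cc_good (D := D) le_rfl)
  have h1 : ∀ k, M p μ (D.cc 0 k) * D.P p ^ k = if k = 0 then 1 else 0 := by
    intro k
    rcases Nat.eq_zero_or_pos k with rfl | hk
    · have e : D.cc 0 0 = fun _ => (1 : ℝ) := by ext x; simp [cc]
      rw [e, M_one]; simp
    · have e : D.cc 0 k = fun _ => (0 : ℝ) := by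
        ext x
        simp [cc, hk.ne']
      rw [e, M_zero]; simp [hk.ne']
  simp only [h1] at h
  exact h.unique (hasSum_ite_eq 0 1)

lemma U_add (p : ℝ≥0∞) [Fact (1 ≤ p)] {s t : ℝ} (hs : 0 ≤ s) (ht : 0 ≤ t) :
    D.U p (s + t) = D.U p s * D.U p t := by
  unfold U
  have h1 := summable_term p (cc_good (D := D) hs)
  have h2 := summable_term p (cc_good (D := D) ht)
  have h3 := tsum_mul_tsum_eq_tsum_sum_antidiagonal_of_summable_norm h1 h2
  rw [Op, Op, Op, h3]
  congr 1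
  ext1 n
  have e : ∀ kl ∈ Finset.HasAntidiagonal.antidiagonal n,
      M p μ (D.cc s kl.1) * D.P p ^ kl.1 * (M p μ (D.cc t kl.2) * D.P p ^ kl.2) =
      M p μ (fun x => D.cc s kl.1 x * D.cc t kl.2 x) * D.P p ^ n := by
    intro kl hkl
    have hk : kl.1 + kl.2 = n := Finset.HasAntidiagonal.mem_antidiagonal.1 hkl
    have c1 := M_Ppow (D := D) p ((cc_good (D := D) ht).Bd kl.2) ((cc_good (D := D) ht).inv kl.2) kl.1
    calc M p μ (D.cc s kl.1) * D.P p ^ kl.1 * (M p μ (D.cc t kl.2) * D.P p ^ kl.2)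
        = M p μ (D.cc s kl.1) * (D.P p ^ kl.1 * M p μ (D.cc t kl.2)) * D.P p ^ kl.2 := by
          simp only [mul_assoc]
      _ = M p μ (D.cc s kl.1) * (M p μ (D.cc t kl.2) * D.P p ^ kl.1) * D.P p ^ kl.2 := by rw [c1]
      _ = (M p μ (D.cc s kl.1) * M p μ (D.cc t kl.2)) * (D.P p ^ kl.1 * D.P p ^ kl.2) := by
          simp only [mul_assoc]
      _ = _ := by
          rw [M_mul p ((cc_good (D := D) hs).Bd _) ((cc_good (D := D) ht).Bd _), ← pow_add, hk]
  rw [Finset.sum_congr rfl e, ← Finset.sum_mul,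
    ← (M_sum p (Finset.HasAntidiagonal.antidiagonal n) (fun (kl : ℕ × ℕ) x => D.cc s kl.1 x * D.cc t kl.2 x)
      (fun kl => ((cc_good (D := D) hs).Bd _).mul ((cc_good (D := D) ht).Bd _))).2]
  congr 2
  ext x
  have hb : ∀ kl ∈ Finset.HasAntidiagonal.antidiagonal n, D.cc s kl.1 x * D.cc t kl.2 x =
      Real.exp (-((s + t) * D.v x)) * (1 / 4) ^ n / n.factorial *
        ((s * D.v x) ^ kl.1 * (t * D.v x) ^ kl.2 * (n.choose kl.1 : ℝ)) := by
    intro kl hkl
    have hk : kl.1 + kl.2 = n := Finset.HasAntidiagonal.mem_antidiagonal.1 hkl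
    have hch : (n.choose kl.1 : ℝ) * kl.1.factorial * kl.2.factorial = n.factorial := by
      have h4 := Nat.choose_mul_factorial_mul_factorial (show kl.1 ≤ n by omega)
      have h5 : n - kl.1 = kl.2 := by omega
      rw [h5] at h4
      exact_mod_cast h4
    have hf1 : (kl.1.factorial : ℝ) ≠ 0 := by positivity
    have hf2 : (kl.2.factorial : ℝ) ≠ 0 := by positivity
    have hf3 : (n.factorial : ℝ) ≠ 0 := by positivity
    unfold cc
    rw [show -((s + t) * D.v x) = -(s * D.v x) + -(t * D.v x) by ring, Real.exp_add, ← hk, pow_add,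
      hk, ← hch]
    have hc0 : (n.choose kl.1 : ℝ) ≠ 0 := by
      intro h0; rw [h0] at hch; simp at hch; exact hf3 hch.symm
    field_simp
  rw [Finset.sum_congr rfl hb, ← Finset.mul_sum]
  have := (Commute.all (s * D.v x) (t * D.v x)).add_pow' n
  simp only [nsmul_eq_mul] at this
  have h6 : ∑ kl ∈ Finset.HasAntidiagonal.antidiagonal n,
      ((s * D.v x) ^ kl.1 * (t * D.v x) ^ kl.2 * (n.choose kl.1 : ℝ)) =
      (s * D.v x + t * D.v x) ^ n := by
    rw [this]
    exact Finset.sum_congr rfl fun kl _ => by ring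
  rw [h6]
  unfold cc
  rw [show s * D.v x + t * D.v x = (s + t) * D.v x by ring]
  ring

lemma U_cont (p : ℝ≥0∞) [Fact (1 ≤ p)] (hp : p ≠ ∞) (f : Lp ℝ p μ) :
    ContinuousOn (fun t => D.U p t f) (Set.Ici 0) := by
  intro t0 ht0
  refine Op_tendsto (C := 1) p hp ?_ (cc_good ht0) ?_ f
  · filter_upwards [self_mem_nhdsWithin] with t ht
    exact cc_good ht
  · intro k x
    have : Continuous fun t => D.cc t k x := by unfold cc; fun_prop
    exact this.continuousAt.tendsto.mono_left nhdsWithin_le_nhds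

/-! ### the resolvent -/

variable (D) in
/-- coefficients of `v (λ - T)⁻¹` -/
noncomputable def kk (lam : ℝ) (k : ℕ) (x : α) : ℝ :=
  D.v x * (D.v x / 4) ^ k / (lam + D.v x) ^ (k + 1)

variable (D) in
/-- coefficients of `(λ - T)⁻¹` -/
noncomputable def rr (lam : ℝ) (k : ℕ) (x : α) : ℝ :=
  (D.v x / 4) ^ k / (lam + D.v x) ^ (k + 1)

lemma kk_eq (lam : ℝ) (k : ℕ) (x : α) : D.kk lam k x = D.v x * D.rr lam k x := by
  unfold kk rr; ring

lemma kk_nonneg {lam : ℝ} (hl : 0 < lam) (k : ℕ) (x : α) : 0 ≤ D.kk lam k x := by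
  have := D.v0 x
  unfold kk; positivity

lemma rr_nonneg {lam : ℝ} (hl : 0 < lam) (k : ℕ) (x : α) : 0 ≤ D.rr lam k x := by
  have := D.v0 x
  unfold rr; positivity

lemma kk_good {lam : ℝ} (hl : 0 < lam) : D.Good 1 (D.kk lam) where
  C0 := zero_le_one
  meas k := by
    have := D.mv
    unfold kk
    fun_prop
  inv k x := by unfold kk; rw [D.vθ]
  bd k x := by
    rw [abs_of_nonneg (kk_nonneg hl k x)]
    have hv := D.v0 x
    unfold kk
    rw [div_le_iff₀ (by positivity)]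
    have h1 : D.v x ^ (k + 1) ≤ (lam + D.v x) ^ (k + 1) :=
      pow_le_pow_left₀ hv.le (by linarith) _
    calc D.v x * (D.v x / 4) ^ k = (1 / 4) ^ k * D.v x ^ (k + 1) := by
          rw [div_pow, one_div, inv_pow]; ring
      _ ≤ 1 * (1 / 4) ^ k * (lam + D.v x) ^ (k + 1) := by
          rw [one_mul]; exact mul_le_mul_of_nonneg_left h1 (by positivity)

lemma rr_good {lam : ℝ} (hl : 0 < lam) : D.Good 1⁻¹ (D.rr lam) where
  C0 := by norm_num
  meas k := by
    have := D.mv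
    unfold rr
    fun_prop
  inv k x := by unfold rr; rw [D.vθ]
  bd k x := by
    have h1 := (kk_good (D := D) hl).bd k x
    rw [abs_of_nonneg (kk_nonneg hl k x), kk_eq] at h1
    rw [abs_of_nonneg (rr_nonneg hl k x)]
    have h2 := D.v1 x
    have h3 := rr_nonneg (D := D) hl k x
    calc D.rr lam k x = 1 * D.rr lam k x := (one_mul _).symm
      _ ≤ D.v x * D.rr lam k x := mul_le_mul_of_nonneg_right h2 h3
      _ ≤ _ := by rw [inv_one]; exact h1

lemma kk_tsum {lam : ℝ} (hl : 0 < lam) (x : α) :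
    ∑' k, D.kk lam k x = D.v x / (lam + (3 / 4) * D.v x) := by
  have hv := D.v0 x
  have e : ∀ k, D.kk lam k x = D.v x / (lam + D.v x) * ((D.v x / 4) / (lam + D.v x)) ^ k := by
    intro k
    unfold kk
    rw [div_pow (D.v x / 4) (lam + D.v x), pow_succ, div_mul_div_comm, mul_comm ((lam + D.v x) ^ k)]
  simp only [e]
  rw [tsum_mul_left, tsum_geometric_of_lt_one (by positivity) (by
    rw [div_lt_one (by positivity)]; linarith)]
  have h1 : lam + D.v x ≠ 0 := by positivity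
  have h2 : lam + 3 / 4 * D.v x ≠ 0 := by positivity
  have h3 : 1 - D.v x / 4 / (lam + D.v x) = (lam + 3 / 4 * D.v x) / (lam + D.v x) := by
    field_simp; ring
  rw [h3]
  field_simp

lemma res_ae {lam : ℝ} (hl : 0 < lam) (h : Lp ℝ 1 μ) :
    (D.Op 1 (D.kk lam) h : α → ℝ) =ᵐ[μ] fun x => D.v x * (D.Op 1 (D.rr lam) h : α → ℝ) x := by
  have key : ∀ N : ℕ, ∀ᵐ x ∂μ, D.v x ≤ N → (D.Op 1 (D.kk lam) h : α → ℝ) x =
      D.v x * (D.Op 1 (D.rr lam) h : α → ℝ) x := by
    intro N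
    have hs : MeasurableSet {x | D.v x ≤ N} := measurableSet_le D.mv measurable_const
    have b1 : DW.Bd (Set.indicator {x | D.v x ≤ N} (fun _ => (1 : ℝ))) := by
      refine ⟨measurable_const.indicator hs, 1, zero_le_one, fun x => ?_⟩
      by_cases hx : x ∈ {x | D.v x ≤ N} <;> simp [hx]
    have b2 : DW.Bd (Set.indicator {x | D.v x ≤ N} D.v) := by
      refine ⟨D.mv.indicator hs, N, Nat.cast_nonneg N, fun x => ?_⟩
      by_cases hx : x ∈ {x | D.v x ≤ N}
      · rw [Set.indicator_of_mem hx, abs_of_pos (D.v0 x)]; exact hx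
      · rw [Set.indicator_of_notMem hx]; simp
    have e1 := M_Op (D := D) 1 (kk_good hl) b1
    have e2 := M_Op (D := D) 1 (rr_good hl) b2
    have e3 : (fun (k : ℕ) (x : α) => Set.indicator {x | D.v x ≤ N} (fun _ => (1 : ℝ)) x * D.kk lam k x) =
        fun k x => Set.indicator {x | D.v x ≤ N} D.v x * D.rr lam k x := by
      ext k x
      by_cases hx : x ∈ {x | D.v x ≤ N}
      · rw [Set.indicator_of_mem hx, Set.indicator_of_mem hx, kk_eq, one_mul]
      · rw [Set.indicator_of_notMem hx, Set.indicator_of_notMem hx]; simp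
    rw [e3, ← e2] at e1
    have e4 : M 1 μ (Set.indicator {x | D.v x ≤ N} (fun _ => (1 : ℝ))) (D.Op 1 (D.kk lam) h) =
        M 1 μ (Set.indicator {x | D.v x ≤ N} D.v) (D.Op 1 (D.rr lam) h) :=
      congrArg (fun T : Lp ℝ 1 μ →L[ℝ] Lp ℝ 1 μ => T h) e1
    have h1 := M_coe' 1 b1 (D.Op 1 (D.kk lam) h)
    have h2 := M_coe' 1 b2 (D.Op 1 (D.rr lam) h)
    rw [e4] at h1
    filter_upwards [h1, h2] with x h1 h2 hx
    have hx' : x ∈ {x | D.v x ≤ N} := hx
    rw [h1, Set.indicator_of_mem hx', Set.indicator_of_mem hx', one_mul] at h2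
    exact h2
  filter_upwards [ae_all_iff.2 key] with x hx
  obtain ⟨N, hN⟩ := exists_nat_ge (D.v x)
  exact hx N hN

lemma res_eq {lam : ℝ} (hl : 0 < lam) :
    lam • D.Op 1 (D.rr lam) + D.Op 1 (D.kk lam) = 1 + (1 / 4 : ℝ) • (D.P 1 * D.Op 1 (D.kk lam)) := by
  have h1 := hasSum_Op 1 (rr_good (D := D) hl)
  have h2 := hasSum_Op 1 (kk_good (D := D) hl)
  have h3 := (h1.const_smul lam).add h2
  have h4 := (h2.mul_left (D.P 1)).const_smul (1 / 4 : ℝ)
  have hM : ∀ k, lam • (M 1 μ (D.rr lam k) * D.P 1 ^ k) + M 1 μ (D.kk lam k) * D.P 1 ^ k =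
      M 1 μ (fun x => lam * D.rr lam k x + D.kk lam k x) * D.P 1 ^ k := by
    intro k
    have b1 := (rr_good (D := D) hl).Bd k
    have b2 := (kk_good (D := D) hl).Bd k
    have hc : DW.Bd (fun _ : α => lam) := ⟨measurable_const, |lam|, abs_nonneg _, fun _ => le_rfl⟩
    rw [M_add 1 (hc.mul b1) b2, M_smul 1 lam b1, add_mul, smul_mul_assoc]
  simp only [hM] at h3
  rw [← h3.tsum_eq, h3.summable.tsum_eq_zero_add, ← h4.tsum_eq]
  congr 1
  · have e : (fun x => lam * D.rr lam 0 x + D.kk lam 0 x) = fun _ : α => (1 : ℝ) := by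
      ext x
      have hv := D.v0 x
      unfold rr kk
      field_simp
      ring
    rw [e, M_one, pow_zero, one_mul]
  · congr 1
    ext1 k
    have b2 := (kk_good (D := D) hl).Bd k
    have e : (fun x => lam * D.rr lam (k + 1) x + D.kk lam (k + 1) x) =
        fun x => (1 / 4 : ℝ) * D.kk lam k x := by
      ext x
      have hv := D.v0 x
      have h0 : lam + D.v x ≠ 0 := by positivity
      unfold rr kk
      rw [pow_succ (lam + D.v x) (k + 1), pow_succ (D.v x / 4) k]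
      field_simp
    rw [e, M_smul 1 (1 / 4) b2, smul_mul_assoc, pow_succ', ← mul_assoc, ← mul_assoc,
      M_P 1 b2 ((kk_good (D := D) hl).inv k)]

end Dila

end Pool.Agent.V11282.DW
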