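import Pool.Agent.V11282.DW.G

/-!
# Dilation walks: the generator
-/

set_option autoImplicit false

open MeasureTheory Filter Topology
open scoped ENNReal NNReal RealInnerProductSpace

namespace Pool.Agent.V11282.DW

variable {α : Type} [MeasurableSpace α] {μ : Measure α}

namespace Dila

variable {D : Dila μ}

variable (D) in
/-- coefficients of the difference quotients -/
noncomputable def ee (t : ℝ) (k : ℕ) (x : α) : ℝ :=
  (D.cc t k x - if k = 0 then 1 else 0) / (t * D.v x)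

lemma ee_zero (t : ℝ) (x : α) : D.ee t 0 x = (Real.exp (-(t * D.v x)) - 1) / (t * D.v x) := by
  unfold ee cc; simp

lemma ee_succ {t : ℝ} (ht : 0 < t) (k : ℕ) (x : α) : D.ee t (k + 1) x =
    Real.exp (-(t * D.v x)) * ((t * D.v x) ^ k / ((k + 1).factorial : ℝ)) * (1 / 4) ^ (k + 1) := by
  have hv := D.v0 x
  unfold ee cc
  rw [if_neg (Nat.succ_ne_zero k), sub_zero, pow_succ (t * D.v x)]
  have h1 : t * D.v x ≠ 0 := by positivity
  have h2 : ((k + 1).factorial : ℝ) ≠ 0 := by positivity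
  field_simp

lemma ee_good {t : ℝ} (ht : 0 < t) : D.Good 1 (D.ee t) where
  C0 := zero_le_one
  meas k := by
    have := D.mv
    have := (cc_good (D := D) ht.le).meas k
    unfold ee
    fun_prop
  inv k x := by unfold ee cc; rw [D.vθ]
  bd k x := by
    have hv := D.v0 x
    have hy : 0 < t * D.v x := by positivity
    cases k with
    | zero =>
      rw [ee_zero, abs_div, abs_of_pos hy, pow_zero, mul_one, div_le_one hy, abs_le]
      have h1 := Real.add_one_le_exp (-(t * D.v x))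
      have h2 : Real.exp (-(t * D.v x)) ≤ 1 := Real.exp_le_one_iff.2 (by linarith)
      constructor <;> linarith
    | succ k =>
      rw [ee_succ ht, abs_of_nonneg (by positivity)]
      refine mul_le_mul_of_nonneg_right ?_ (by positivity)
      have h1 := Real.pow_div_factorial_le_exp (t * D.v x) hy.le k
      have h3 : (t * D.v x) ^ k / ((k + 1).factorial : ℝ) ≤ (t * D.v x) ^ k / (k.factorial : ℝ) := by
        apply div_le_div_of_nonneg_left (by positivity) (by positivity)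
        exact_mod_cast Nat.factorial_le (Nat.le_succ k)
      calc Real.exp (-(t * D.v x)) * ((t * D.v x) ^ k / ((k + 1).factorial : ℝ))
          ≤ Real.exp (-(t * D.v x)) * Real.exp (t * D.v x) :=
            mul_le_mul_of_nonneg_left (h3.trans h1) (Real.exp_pos _).le
        _ = 1 := by rw [← Real.exp_add]; simp

/-- coefficients of the generator -/
noncomputable def gg (k : ℕ) (_ : α) : ℝ := if k = 0 then -1 else if k = 1 then 1 / 4 else 0

lemma gg_good : D.Good 1 (gg (α := α)) where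
  C0 := zero_le_one
  meas k := by unfold gg; exact measurable_const
  inv k x := rfl
  bd k x := by
    unfold gg
    split_ifs with h1 h2
    · rw [h1]; simp
    · rw [h2]; norm_num
    · simp

lemma ee_lim (k : ℕ) (x : α) : Tendsto (fun t => D.ee t k x) (𝓝[>] 0) (𝓝 (gg k x)) := by
  have hv := D.v0 x
  match k with
  | 0 =>
    have e : (fun t => D.ee t 0 x) = fun t => (Real.exp (-(t * D.v x)) - 1) / (t * D.v x) := by
      ext t; exact ee_zero t x
    rw [e]
    have h1 : HasDerivAt (fun t : ℝ => Real.exp (-(t * D.v x))) (-(D.v x)) 0 := by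
      have h2 : HasDerivAt (fun t : ℝ => -(t * D.v x)) (-(1 * D.v x)) 0 :=
        ((hasDerivAt_id (0 : ℝ)).mul_const (D.v x)).neg
      have h3 := h2.exp
      simpa using h3
    have h4 := (hasDerivAt_iff_tendsto_slope_zero.1 h1).mono_left
      (nhdsWithin_mono (0 : ℝ) (fun y (hy : 0 < y) => (ne_of_gt hy : y ≠ 0)))
    have h5 := h4.div_const (D.v x)
    have e2 : -(D.v x) / D.v x = gg 0 x := by
      unfold gg; simp [neg_div, hv.ne']
    rw [e2] at h5
    refine h5.congr' ?_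
    filter_upwards [self_mem_nhdsWithin] with t ht
    have ht' : (0 : ℝ) < t := ht
    simp only [zero_add, zero_mul, neg_zero, Real.exp_zero, smul_eq_mul]
    field_simp
  | 1 =>
    have h1 : Tendsto (fun t : ℝ => Real.exp (-(t * D.v x)) * (1 / 4)) (𝓝[>] 0) (𝓝 (gg 1 x)) := by
      have : Continuous fun t : ℝ => Real.exp (-(t * D.v x)) * (1 / 4) := by fun_prop
      have h2 := (this.tendsto 0).mono_left (nhdsWithin_le_nhds (s := Set.Ioi 0))
      simpa [gg] using h2
    refine h1.congr' ?_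
    filter_upwards [self_mem_nhdsWithin] with t ht
    rw [show (1 : ℕ) = 0 + 1 from rfl, ee_succ ht]
    simp
  | (k + 2) =>
    have h1 : Tendsto (fun t : ℝ => Real.exp (-(t * D.v x)) *
        ((t * D.v x) ^ (k + 1) / ((k + 1 + 1).factorial : ℝ)) * (1 / 4) ^ (k + 1 + 1)) (𝓝[>] 0)
        (𝓝 (gg (k + 2) x)) := by
      have : Continuous fun t : ℝ => Real.exp (-(t * D.v x)) *
        ((t * D.v x) ^ (k + 1) / ((k + 1 + 1).factorial : ℝ)) * (1 / 4) ^ (k + 1 + 1) := by fun_prop
      have h2 := (this.tendsto 0).mono_left (nhdsWithin_le_nhds (s := Set.Ioi 0))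
      simpa [gg] using h2
    refine h1.congr' ?_
    filter_upwards [self_mem_nhdsWithin] with t ht
    rw [show k + 2 = (k + 1) + 1 from rfl, ee_succ ht]

lemma Ppow_v (p : ℝ≥0∞) [Fact (1 ≤ p)] {f w : Lp ℝ p μ}
    (hw : (w : α → ℝ) =ᵐ[μ] fun x => D.v x * f x) (k : ℕ) :
    ((D.P p ^ k) w : α → ℝ) =ᵐ[μ] fun x => D.v x * ((D.P p ^ k) f : α → ℝ) x := by
  induction k with
  | zero => exact hw
  | succ k ih =>
    rw [pow_succ']
    have h1 := (D.P_coe p ((D.P p ^ k) w)).trans (D.W_congr ih)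
    rw [D.W_inv D.vθ] at h1
    filter_upwards [h1, D.P_coe p ((D.P p ^ k) f)] with x h1 h2
    show (D.P p ((D.P p ^ k) w) : α → ℝ) x = D.v x * (D.P p ((D.P p ^ k) f) : α → ℝ) x
    rw [h1, h2]

/-- difference quotients of the semigroup -/
lemma quot_eq (p : ℝ≥0∞) [Fact (1 ≤ p)] {f w : Lp ℝ p μ}
    (hw : (w : α → ℝ) =ᵐ[μ] fun x => D.v x * f x) {t : ℝ} (ht : 0 < t) :
    t⁻¹ • (D.U p t f - f) = D.Op p (D.ee t) w := by
  have h1 := hasSum_Op_apply p (cc_good (D := D) ht.le) f
  have h2 : HasSum (fun k : ℕ => if k = 0 then f else 0) f := hasSum_ite_eq 0 f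
  have h3 := (h1.sub h2).const_smul t⁻¹
  have h4 := hasSum_Op_apply p (ee_good (D := D) ht) w
  refine h3.unique ?_
  convert h4 using 2 with k
  apply Lp.ext
  have h5 : ((if k = 0 then f else 0 : Lp ℝ p μ) : α → ℝ) =ᵐ[μ]
      fun x => (if k = 0 then 1 else 0) * ((D.P p ^ k) f : α → ℝ) x := by
    rcases Nat.eq_zero_or_pos k with rfl | hk
    · simp only [if_true, one_mul]
      exact EventuallyEq.rfl
    · simp only [hk.ne', if_false, zero_mul]
      exact Lp.coeFn_zero ℝ p μ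
  filter_upwards [Lp.coeFn_smul t⁻¹ (M p μ (D.cc t k) ((D.P p ^ k) f) - if k = 0 then f else 0),
    Lp.coeFn_sub (M p μ (D.cc t k) ((D.P p ^ k) f)) (if k = 0 then f else 0), h5,
    M_coe' p ((cc_good (D := D) ht.le).Bd k) ((D.P p ^ k) f),
    M_coe' p ((ee_good (D := D) ht).Bd k) ((D.P p ^ k) w), Ppow_v p hw k] with x e1 e2 e3 e4 e5 e6
  rw [e1, Pi.smul_apply, e2, Pi.sub_apply, e3, e4, e5, e6, smul_eq_mul]
  have hv := D.v0 x
  unfold ee
  field_simp

lemma Op_gg (p : ℝ≥0∞) [Fact (1 ≤ p)] (w : Lp ℝ p μ) :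
    D.Op p gg w = (1 / 4 : ℝ) • D.P p w - w := by
  have h1 := hasSum_Op_apply p (gg_good (D := D)) w
  have h2 : HasSum (fun k => M p μ (gg k) ((D.P p ^ k) w))
      (∑ k ∈ Finset.range 2, M p μ (gg k) ((D.P p ^ k) w)) := by
    refine hasSum_sum_of_ne_finset_zero fun k hk => ?_
    have hk2 : 2 ≤ k := by simp at hk; omega
    have e : (gg k : α → ℝ) = fun _ => (0 : ℝ) := by
      ext x; unfold gg
      rw [if_neg (by omega), if_neg (by omega)]
    rw [e, M_zero]; rfl
  rw [h1.unique h2, Finset.sum_range_succ, Finset.sum_range_one]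
  have e0 : (gg 0 : α → ℝ) = fun _ => (-1 : ℝ) * 1 := by ext x; simp [gg]
  have e1 : (gg 1 : α → ℝ) = fun _ => (1 / 4 : ℝ) * 1 := by ext x; simp [gg]
  rw [e0, e1, M_smul p (-1) Bd.one, M_smul p (1 / 4) Bd.one, M_one, pow_zero, pow_one]
  show (-1 : ℝ) • w + (1 / 4 : ℝ) • D.P p w = _
  rw [neg_one_smul]
  abel

lemma gen {lam : ℝ} (hl : 0 < lam) (h : Lp ℝ 1 μ) :
    Tendsto (fun t : ℝ => t⁻¹ • (D.U 1 t (D.Op 1 (D.rr lam) h) - D.Op 1 (D.rr lam) h)) (𝓝[>] 0)
      (𝓝 (lam • D.Op 1 (D.rr lam) h - h)) := by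
  have e1 : lam • D.Op 1 (D.rr lam) h - h = D.Op 1 gg (D.Op 1 (D.kk lam) h) := by
    rw [Op_gg]
    have := congrArg (fun T : Lp ℝ 1 μ →L[ℝ] Lp ℝ 1 μ => T h) (res_eq (D := D) hl)
    have h2 : lam • D.Op 1 (D.rr lam) h + D.Op 1 (D.kk lam) h =
        h + (1 / 4 : ℝ) • D.P 1 (D.Op 1 (D.kk lam) h) := this
    rw [sub_eq_sub_iff_add_eq_add, h2, add_comm]
  rw [e1]
  have h3 := Op_tendsto (D := D) (C := 1) 1 ENNReal.one_ne_top (l := 𝓝[>] (0 : ℝ))
    (A := D.ee) (a := gg) (by
      filter_upwards [self_mem_nhdsWithin] with t ht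
      exact ee_good ht) gg_good ee_lim (D.Op 1 (D.kk lam) h)
  refine h3.congr' ?_
  filter_upwards [self_mem_nhdsWithin] with t ht
  exact (quot_eq 1 (res_ae hl h) ht).symm

end Dila

end Pool.Agent.V11282.DW
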