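import Pool.Agent.V11282.DW.H

/-!
# Dilation walks: domains, the resolvent operator and its spectral radius, the form
-/

set_option autoImplicit false

open MeasureTheory Filter Topology
open scoped ENNReal NNReal RealInnerProductSpace

namespace Pool.Agent.V11282.DW

variable {α : Type} [MeasurableSpace α] {μ : Measure α}

namespace Dila

variable {D : Dila μ}

lemma quot_nonneg {κ : ℝ} (hκ : 0 ≤ κ) {t : ℝ} (ht : 0 < t) (x : α) :
    0 ≤ (1 - Real.exp (-(t * (κ * D.v x)))) / t := by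
  have hv := D.v0 x
  have h2 : Real.exp (-(t * (κ * D.v x))) ≤ 1 := Real.exp_le_one_iff.2 (by
    have : 0 ≤ t * (κ * D.v x) := by positivity
    linarith)
  exact div_nonneg (by linarith) ht.le

/-- Fatou's lemma for difference quotients -/
lemma fatou {κ : ℝ} (hκ : 0 ≤ κ) {u : α → ℝ} (hu : AEMeasurable u μ)
    {B : ℕ → ℝ≥0∞} {B0 : ℝ≥0∞} (hB : Tendsto B atTop (𝓝 B0))
    (h : ∀ n : ℕ, ∫⁻ x, ENNReal.ofReal ((1 - Real.exp (-((1 / ((n : ℝ) + 1)) * (κ * D.v x)))) /
      (1 / ((n : ℝ) + 1)) * u x) ∂μ ≤ B n) :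
    ∫⁻ x, ENNReal.ofReal (κ * D.v x * u x) ∂μ ≤ B0 := by
  have hm := D.mv
  have h1 : ∀ x, Tendsto (fun n : ℕ => ENNReal.ofReal ((1 - Real.exp (-((1 / ((n : ℝ) + 1)) *
      (κ * D.v x)))) / (1 / ((n : ℝ) + 1)) * u x)) atTop (𝓝 (ENNReal.ofReal (κ * D.v x * u x))) := by
    intro x
    refine ENNReal.tendsto_ofReal ?_
    refine Tendsto.mul_const _ ?_
    have h2 : HasDerivAt (fun t : ℝ => -Real.exp (-(t * (κ * D.v x)))) (κ * D.v x) 0 := by
      have h2 : HasDerivAt (fun t : ℝ => -(t * (κ * D.v x))) (-(1 * (κ * D.v x))) 0 :=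
        ((hasDerivAt_id (0 : ℝ)).mul_const (κ * D.v x)).neg
      have h3 := h2.exp.fun_neg
      simpa using h3
    have h4 := (hasDerivAt_iff_tendsto_slope_zero.1 h2).mono_left
      (nhdsWithin_mono (0 : ℝ) (fun y (hy : 0 < y) => (ne_of_gt hy : y ≠ 0)))
    have h5 : Tendsto (fun n : ℕ => 1 / ((n : ℝ) + 1)) atTop (𝓝[>] 0) := by
      refine tendsto_nhdsWithin_iff.2 ⟨tendsto_one_div_add_atTop_nhds_zero_nat, ?_⟩
      exact Eventually.of_forall fun n => by
        show (0 : ℝ) < 1 / ((n : ℝ) + 1)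
        positivity
    have h6 := h4.comp h5
    refine h6.congr fun n => ?_
    simp only [Function.comp, zero_add, zero_mul, neg_zero, Real.exp_zero, smul_eq_mul]
    rw [div_eq_inv_mul]
    ring
  have h3 : ∫⁻ x, ENNReal.ofReal (κ * D.v x * u x) ∂μ ≤
      liminf (fun n : ℕ => ∫⁻ x, ENNReal.ofReal ((1 - Real.exp (-((1 / ((n : ℝ) + 1)) *
      (κ * D.v x)))) / (1 / ((n : ℝ) + 1)) * u x) ∂μ) atTop := by
    refine le_trans (le_of_eq ?_) (lintegral_liminf_le' fun n => ?_)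
    · apply lintegral_congr
      intro x
      exact (h1 x).liminf_eq.symm
    · fun_prop
  refine h3.trans ?_
  rw [← hB.liminf_eq]
  exact liminf_le_liminf (Eventually.of_forall h)

/-- the domain of the generator is in the domain of `v` -/
lemma dom {f g : Lp ℝ 1 μ} (hg : Tendsto (fun t : ℝ => t⁻¹ • (D.U 1 t f - f)) (𝓝[>] 0) (𝓝 g)) :
    Integrable (fun x => D.v x * f x) μ := by
  have hfi : Integrable (f : α → ℝ) μ := L1.integrable_coeFn f
  have hseq : Tendsto (fun n : ℕ => 1 / ((n : ℝ) + 1)) atTop (𝓝[>] 0) := by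
    refine tendsto_nhdsWithin_iff.2 ⟨tendsto_one_div_add_atTop_nhds_zero_nat, ?_⟩
    exact Eventually.of_forall fun n => by
      show (0 : ℝ) < 1 / ((n : ℝ) + 1)
      positivity
  have h1 := (hg.comp hseq).norm
  have h2 := ENNReal.tendsto_ofReal h1
  have h3 := fatou (D := D) (κ := 3 / 4) (by norm_num) (u := fun x => |f x|) hfi.1.aemeasurable.abs h2
    (fun n => by
      set t : ℝ := 1 / ((n : ℝ) + 1) with ht
      have ht0 : 0 < t := by rw [ht]; positivity
      have h4 := norm_Op_le (cc_good (D := D) ht0.le) (cc_nonneg ht0.le) f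
      simp only [cc_tsum] at h4
      have hexp : DW.Bd (fun x => Real.exp (-(t * (3 / 4 * D.v x)))) := by
        refine ⟨by have := D.mv; fun_prop, 1, zero_le_one, fun x => ?_⟩
        have := D.v0 x
        rw [abs_of_pos (Real.exp_pos _)]
        exact Real.exp_le_one_iff.2 (by
          have : 0 ≤ t * (3 / 4 * D.v x) := by positivity
          linarith)
      have i1 : Integrable (fun x => Real.exp (-(t * (3 / 4 * D.v x))) * |f x|) μ :=
        hexp.integrable hfi.abs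
      have i2 : Integrable (fun x => (1 - Real.exp (-(t * (3 / 4 * D.v x)))) / t * |f x|) μ := by
        refine ((hfi.abs.sub i1).const_mul t⁻¹).congr (Eventually.of_forall fun x => ?_)
        simp only [Pi.sub_apply]
        rw [div_eq_inv_mul]
        ring
      rw [← ofReal_integral_eq_lintegral_ofReal i2 (Eventually.of_forall fun x =>
        mul_nonneg (quot_nonneg (by norm_num) ht0 x) (abs_nonneg _))]
      refine ENNReal.ofReal_le_ofReal ?_
      have e1 : ∫ x, (1 - Real.exp (-(t * (3 / 4 * D.v x)))) / t * |f x| ∂μ =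
          t⁻¹ * (∫ x, |f x| ∂μ - ∫ x, Real.exp (-(t * (3 / 4 * D.v x))) * |f x| ∂μ) := by
        rw [← integral_sub hfi.abs i1, ← integral_const_mul]
        apply integral_congr_ae
        refine Eventually.of_forall fun x => ?_
        simp only
        rw [div_eq_inv_mul]
        ring
      have e2 : ‖f‖ = ∫ x, |f x| ∂μ := by
        rw [L1.norm_eq_integral_norm]; rfl
      rw [e1, ← e2]
      show _ ≤ ‖t⁻¹ • (D.U 1 t f - f)‖
      rw [norm_smul, Real.norm_of_nonneg (inv_nonneg.2 ht0.le)]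
      refine mul_le_mul_of_nonneg_left ?_ (inv_nonneg.2 ht0.le)
      have h5 : ‖f‖ - ‖D.U 1 t f‖ ≤ ‖D.U 1 t f - f‖ := by
        rw [norm_sub_rev]; exact norm_sub_norm_le _ _
      have h6 : ‖D.U 1 t f‖ ≤ ∫ x, Real.exp (-(t * (3 / 4 * D.v x))) * |f x| ∂μ := h4
      linarith)
  have hmeas : AEStronglyMeasurable (fun x => D.v x * f x) μ :=
    D.mv.aestronglyMeasurable.mul hfi.1
  refine ⟨hmeas, ?_⟩
  rw [hasFiniteIntegral_iff_norm]
  have h7 : ∫⁻ x, ENNReal.ofReal ‖D.v x * f x‖ ∂μ ≤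
      ∫⁻ x, ENNReal.ofReal (4 / 3) * ENNReal.ofReal (3 / 4 * D.v x * |f x|) ∂μ := by
    refine lintegral_mono fun x => ?_
    have := D.v0 x
    rw [← ENNReal.ofReal_mul (by norm_num), Real.norm_eq_abs, abs_mul, abs_of_pos (D.v0 x)]
    refine ENNReal.ofReal_le_ofReal (le_of_eq ?_)
    ring
  refine h7.trans_lt ?_
  rw [lintegral_const_mul' _ _ ENNReal.ofReal_ne_top]
  exact ENNReal.mul_lt_top ENNReal.ofReal_lt_top (h3.trans_lt ENNReal.ofReal_lt_top)

/-! ### the spectral radius -/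

lemma kk_sum_le {lam : ℝ} (hl : 0 < lam) (x : α) : ∑' k, D.kk lam k x ≤ 4 / 3 := by
  rw [kk_tsum hl]
  have hv := D.v0 x
  rw [div_le_div_iff₀ (by positivity) (by norm_num)]
  linarith

lemma K_norm {lam : ℝ} (hl : 0 < lam) : ‖D.Op 1 (D.kk lam)‖ ≤ 4 / 3 := by
  refine ContinuousLinearMap.opNorm_le_bound _ (by norm_num) fun f => ?_
  have hfi : Integrable (f : α → ℝ) μ := L1.integrable_coeFn f
  refine (norm_Op_le (kk_good hl) (kk_nonneg hl) f).trans ?_
  have hb : DW.Bd (fun x => ∑' k, D.kk lam k x) := by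
    refine ⟨?_, 1 * (4 / 3), by norm_num, (kk_good hl).sum_le⟩
    have : (fun x => ∑' k, D.kk lam k x) = fun x => D.v x / (lam + (3 / 4) * D.v x) := by
      ext x; exact kk_tsum hl x
    rw [this]
    have := D.mv
    fun_prop
  have e2 : ‖f‖ = ∫ x, |f x| ∂μ := by
    rw [L1.norm_eq_integral_norm]; rfl
  rw [e2, ← integral_const_mul]
  exact integral_mono (hb.integrable hfi.abs) (hfi.abs.const_mul _) fun x =>
    mul_le_mul_of_nonneg_right (kk_sum_le hl x) (abs_nonneg _)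

lemma int_Kpow {lam : ℝ} (hl : 0 < lam) (f : Lp ℝ 1 μ) (n : ℕ) {g : α → ℝ} (hg : DW.Bd g)
    (hi : ∀ x, g (D.θ x) = g x) :
    ∫ x, g x * ((D.Op 1 (D.kk lam) ^ n) f : α → ℝ) x ∂μ =
      ∫ x, (g x * (D.v x / (lam + (3 / 4) * D.v x)) ^ n) * f x ∂μ := by
  have hb : DW.Bd (fun x => D.v x / (lam + (3 / 4) * D.v x)) := by
    refine ⟨by have := D.mv; fun_prop, 4 / 3, by norm_num, fun x => ?_⟩
    rw [abs_of_nonneg (by have := D.v0 x; positivity)]
    have := kk_sum_le (D := D) hl x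
    rw [kk_tsum hl] at this
    exact this
  induction n generalizing g with
  | zero => simp
  | succ n ih =>
    rw [pow_succ']
    show ∫ x, g x * (D.Op 1 (D.kk lam) ((D.Op 1 (D.kk lam) ^ n) f) : α → ℝ) x ∂μ = _
    rw [int_Op (kk_good hl) hg hi]
    simp only [kk_tsum hl]
    rw [ih (hg.mul hb) (fun x => by rw [hi, D.vθ])]
    apply integral_congr_ae
    refine Eventually.of_forall fun x => ?_
    simp only
    rw [pow_succ' (D.v x / (lam + (3 / 4) * D.v x))]
    ring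

lemma Kpow_norm {lam : ℝ} (hl : 0 < lam) {n : ℕ} (hn : 0 < n) :
    ‖D.Op 1 (D.kk lam) ^ n‖ = (4 / 3) ^ n := by
  refine le_antisymm ((norm_pow_le' _ hn).trans (pow_le_pow_left₀ (norm_nonneg _) (K_norm hl) n)) ?_
  have hN : ∀ N : ℕ, ((N + 1 : ℝ) / (lam + (3 / 4) * (N + 1 : ℝ))) ^ n ≤ ‖D.Op 1 (D.kk lam) ^ n‖ := by
    intro N
    obtain ⟨B, hBm, hB0, hB1, hBv⟩ := D.big (N + 1)
    set f : Lp ℝ 1 μ := indicatorConstLp 1 hBm hB1.ne (1 : ℝ) with hf
    have hfe : (f : α → ℝ) =ᵐ[μ] B.indicator fun _ => (1 : ℝ) := indicatorConstLp_coeFn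
    have hμB : 0 < μ.real B := ENNReal.toReal_pos hB0.ne' hB1.ne
    have hfn : ‖f‖ = μ.real B := by
      rw [hf, norm_indicatorConstLp one_ne_zero ENNReal.one_ne_top]; simp
    have h1 := int_Kpow (D := D) hl f n (g := fun _ => (1 : ℝ)) Bd.one (fun _ => rfl)
    simp only [one_mul] at h1
    have h2 : ∫ x, ((D.Op 1 (D.kk lam) ^ n) f : α → ℝ) x ∂μ ≤ ‖(D.Op 1 (D.kk lam) ^ n) f‖ := by
      rw [L1.norm_eq_integral_norm]
      refine (le_abs_self _).trans ?_
      rw [← Real.norm_eq_abs]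
      exact norm_integral_le_integral_norm _
    have h3 := (D.Op 1 (D.kk lam) ^ n).le_opNorm f
    rw [hfn] at h3
    have hb : DW.Bd (fun x => (D.v x / (lam + (3 / 4) * D.v x)) ^ n) := by
      refine ⟨by have := D.mv; fun_prop, (4 / 3) ^ n, by positivity, fun x => ?_⟩
      rw [abs_of_nonneg (by have := D.v0 x; positivity)]
      refine pow_le_pow_left₀ (by have := D.v0 x; positivity) ?_ n
      rw [← kk_tsum hl]
      exact kk_sum_le hl x
    have h4 : ((N + 1 : ℝ) / (lam + (3 / 4) * (N + 1 : ℝ))) ^ n * μ.real B ≤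
        ∫ x, (D.v x / (lam + (3 / 4) * D.v x)) ^ n * f x ∂μ := by
      rw [← hfn, L1.norm_eq_integral_norm, ← integral_const_mul]
      have hfi : Integrable (f : α → ℝ) μ := L1.integrable_coeFn f
      refine integral_mono_ae (hfi.norm.const_mul _) (hb.integrable hfi) ?_
      filter_upwards [hfe] with x hx
      rw [hx]
      by_cases hxB : x ∈ B
      · rw [Set.indicator_of_mem hxB, norm_one, mul_one, mul_one]
        refine pow_le_pow_left₀ (by positivity) ?_ n
        have hv := hBv x hxB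
        have hv0 := D.v0 x
        rw [div_le_div_iff₀ (by positivity) (by positivity)]
        nlinarith
      · rw [Set.indicator_of_notMem hxB]; simp
    have h5 : ((N + 1 : ℝ) / (lam + (3 / 4) * (N + 1 : ℝ))) ^ n * μ.real B ≤
        ‖D.Op 1 (D.kk lam) ^ n‖ * μ.real B := by
      rw [← h1] at h4
      exact h4.trans (h2.trans h3)
    exact le_of_mul_le_mul_right h5 hμB
  have hlim : Tendsto (fun N : ℕ => ((N + 1 : ℝ) / (lam + (3 / 4) * (N + 1 : ℝ))) ^ n) atTop
      (𝓝 ((4 / 3) ^ n)) := by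
    refine Tendsto.pow ?_ n
    have h1 : Tendsto (fun N : ℕ => 1 / (lam * (1 / ((N : ℝ) + 1)) + 3 / 4)) atTop
        (𝓝 (1 / (lam * 0 + 3 / 4))) := by
      refine Tendsto.div tendsto_const_nhds ?_ (by norm_num)
      exact (tendsto_one_div_add_atTop_nhds_zero_nat.const_mul lam).add_const _
    have e : (1 : ℝ) / (lam * 0 + 3 / 4) = 4 / 3 := by norm_num
    rw [e] at h1
    refine h1.congr fun N => ?_
    have : (0 : ℝ) < (N : ℝ) + 1 := by positivity
    field_simp
  exact le_of_tendsto hlim (Eventually.of_forall hN)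

lemma K_radius {lam : ℝ} (hl : 0 < lam) :
    Tendsto (fun n : ℕ => ‖D.Op 1 (D.kk lam) ^ n‖ ^ (1 / (n : ℝ))) atTop (𝓝 (4 / 3)) := by
  refine tendsto_const_nhds.congr' ?_
  filter_upwards [eventually_gt_atTop 0] with n hn
  rw [Kpow_norm hl hn, one_div, Real.pow_rpow_inv_natCast (by norm_num) hn.ne']

/-! ### the form -/

lemma form_ge (f : Lp ℝ 2 μ) {t : ℝ} (ht : 0 < t) :
    ∫⁻ x, ENNReal.ofReal ((1 - Real.exp (-(t * ((1 - D.ρ / 4) * D.v x)))) / t * (f x * f x)) ∂μ ≤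
      ENNReal.ofReal (⟪f - D.U 2 t f, f⟫ / t) := by
  have hff := int_mul f f
  have hρ : 0 ≤ 1 - D.ρ / 4 := by have := D.ρ_lt; linarith
  have h4 := Op_form (cc_good (D := D) ht.le) (cc_nonneg ht.le) f
  simp only [cc_tsum_ρ] at h4
  have hexp : DW.Bd (fun x => Real.exp (-(t * ((1 - D.ρ / 4) * D.v x)))) := by
    refine ⟨by have := D.mv; fun_prop, 1, zero_le_one, fun x => ?_⟩
    have := D.v0 x
    rw [abs_of_pos (Real.exp_pos _)]
    exact Real.exp_le_one_iff.2 (by
      have : 0 ≤ t * ((1 - D.ρ / 4) * D.v x) := by positivity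
      linarith)
  have i1 : Integrable (fun x => Real.exp (-(t * ((1 - D.ρ / 4) * D.v x))) * (f x * f x)) μ :=
    hexp.integrable hff
  have i2 : Integrable (fun x => (1 - Real.exp (-(t * ((1 - D.ρ / 4) * D.v x)))) / t * (f x * f x)) μ := by
    refine ((hff.sub i1).const_mul t⁻¹).congr (Eventually.of_forall fun x => ?_)
    simp only [Pi.sub_apply]
    rw [div_eq_inv_mul]
    ring
  rw [← ofReal_integral_eq_lintegral_ofReal i2 (Eventually.of_forall fun x =>
    mul_nonneg (quot_nonneg hρ ht x) (mul_self_nonneg _))]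
  refine ENNReal.ofReal_le_ofReal ?_
  have e1 : ∫ x, (1 - Real.exp (-(t * ((1 - D.ρ / 4) * D.v x)))) / t * (f x * f x) ∂μ =
      t⁻¹ * (∫ x, f x * f x ∂μ - ∫ x, Real.exp (-(t * ((1 - D.ρ / 4) * D.v x))) * (f x * f x) ∂μ) := by
    rw [← integral_sub hff i1, ← integral_const_mul]
    apply integral_congr_ae
    refine Eventually.of_forall fun x => ?_
    simp only
    rw [div_eq_inv_mul]
    ring
  rw [e1, inner_sub_left, inner_eq f f, real_inner_comm, div_eq_inv_mul _ t]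
  refine mul_le_mul_of_nonneg_left ?_ (inv_nonneg.2 ht.le)
  have h5 : ⟪f, D.U 2 t f⟫ ≤
      ∫ x, Real.exp (-(t * ((1 - D.ρ / 4) * D.v x))) * (f x * f x) ∂μ := h4
  linarith

lemma form_bound (f : Lp ℝ 2 μ) :
    ∫⁻ x, ENNReal.ofReal ((1 - D.ρ / 4) * D.v x * (f x * f x)) ∂μ ≤
      ⨆ t : ℝ, ⨆ _ : 0 < t, ENNReal.ofReal (⟪f - D.U 2 t f, f⟫ / t) := by
  have hρ : 0 ≤ 1 - D.ρ / 4 := by have := D.ρ_lt; linarith
  refine fatou (D := D) hρ (u := fun x => f x * f x)
    ((Lp.aestronglyMeasurable f).aemeasurable.mul (Lp.aestronglyMeasurable f).aemeasurable)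
    (B := fun _ => ⨆ t : ℝ, ⨆ _ : 0 < t, ENNReal.ofReal (⟪f - D.U 2 t f, f⟫ / t))
    tendsto_const_nhds fun n => ?_
  have ht : (0 : ℝ) < 1 / ((n : ℝ) + 1) := by positivity
  exact (form_ge f ht).trans (le_iSup₂ (f := fun (t : ℝ) (_ : 0 < t) =>
    ENNReal.ofReal (⟪f - D.U 2 t f, f⟫ / t)) (1 / ((n : ℝ) + 1)) ht)

end Dila

end Pool.Agent.V11282.DW
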