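import Pool.Agent.V11282.DW.I

/-!
# Dilation walks: the dilation walk on Euclidean space
-/

set_option autoImplicit false

open MeasureTheory Filter Topology
open scoped ENNReal NNReal RealInnerProductSpace

namespace Pool.Agent.V11282.DW

/-- the speed -/
noncomputable def spd {d : ℕ} (y : EuclideanSpace ℝ (Fin d)) : ℝ := (1 - Int.fract (Real.logb 2 ‖y‖))⁻¹

lemma spd_meas {d : ℕ} : Measurable (spd (d := d)) := by
  unfold spd
  have h1 : Measurable fun y : EuclideanSpace ℝ (Fin d) => Real.logb 2 ‖y‖ := by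
    unfold Real.logb
    exact (Real.measurable_log.comp measurable_norm).div_const _
  exact (measurable_const.sub h1.fract).inv

lemma spd_one {d : ℕ} (y : EuclideanSpace ℝ (Fin d)) : 1 ≤ spd y := by
  unfold spd
  have h1 := Int.fract_lt_one (Real.logb 2 ‖y‖)
  have h2 := Int.fract_nonneg (Real.logb 2 ‖y‖)
  rw [one_le_inv_iff₀]
  constructor <;> linarith

lemma spd_inv {d : ℕ} (y : EuclideanSpace ℝ (Fin d)) : spd ((2 : ℝ) • y) = spd y := by
  unfold spd
  rcases eq_or_ne y 0 with rfl | hy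
  · simp
  · have hn : ‖y‖ ≠ 0 := norm_ne_zero_iff.2 hy
    rw [norm_smul, Real.norm_of_nonneg (by norm_num), Real.logb_mul (by norm_num) hn,
      Real.logb_self_eq_one (by norm_num), Int.fract_one_add]

lemma spd_big {d : ℕ} (hd : 0 < d) (N : ℝ) : ∃ B : Set (EuclideanSpace ℝ (Fin d)),
    MeasurableSet B ∧ 0 < volume B ∧ volume B < ∞ ∧ ∀ x ∈ B, N ≤ spd x := by
  set e : ℝ := 1 / (|N| + 1) with he
  have hN : 0 < |N| + 1 := by positivity
  have he0 : 0 < e := by rw [he]; positivity
  have he1 : e ≤ 1 := by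
    rw [he, div_le_one hN]; have := abs_nonneg N; linarith
  have hlow : (2 : ℝ) ^ (1 - e) < 2 := by
    calc (2 : ℝ) ^ (1 - e) < 2 ^ (1 : ℝ) := Real.rpow_lt_rpow_of_exponent_lt (by norm_num) (by linarith)
      _ = 2 := Real.rpow_one _
  have hlow0 : 0 < (2 : ℝ) ^ (1 - e) := by positivity
  set B : Set (EuclideanSpace ℝ (Fin d)) := {y | (2 : ℝ) ^ (1 - e) < ‖y‖ ∧ ‖y‖ < 2} with hB
  have hop : IsOpen B := by
    rw [hB]
    exact (isOpen_lt continuous_const continuous_norm).inter (isOpen_lt continuous_norm continuous_const)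
  refine ⟨B, hop.measurableSet, ?_, ?_, ?_⟩
  · refine hop.measure_pos volume ?_
    refine ⟨EuclideanSpace.single (⟨0, hd⟩ : Fin d) (((2 : ℝ) ^ (1 - e) + 2) / 2), ?_⟩
    rw [hB]
    have hn : ‖EuclideanSpace.single (⟨0, hd⟩ : Fin d) (((2 : ℝ) ^ (1 - e) + 2) / 2)‖ =
        ((2 : ℝ) ^ (1 - e) + 2) / 2 := by
      rw [EuclideanSpace.norm_single, Real.norm_of_nonneg (by positivity)]
    show _ < _ ∧ _ < _
    rw [hn]
    constructor <;> linarith
  · have hsub : B ⊆ Metric.ball 0 2 := by
      intro y hy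
      rw [mem_ball_zero_iff]
      exact hy.2
    exact (measure_mono hsub).trans_lt measure_ball_lt_top
  · intro y hy
    have hy0 : 0 < ‖y‖ := hlow0.trans hy.1
    have h1 : 1 - e < Real.logb 2 ‖y‖ := (Real.lt_logb_iff_rpow_lt (by norm_num) hy0).2 hy.1
    have h2 : Real.logb 2 ‖y‖ < 1 := by
      rw [Real.logb_lt_iff_lt_rpow (by norm_num) hy0, Real.rpow_one]
      exact hy.2
    have h3 : Int.fract (Real.logb 2 ‖y‖) = Real.logb 2 ‖y‖ :=
      Int.fract_eq_self.2 ⟨by linarith, h2⟩
    unfold spd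
    rw [h3]
    have h4 : (1 - Real.logb 2 ‖y‖) < e := by linarith
    have h5 : e⁻¹ ≤ (1 - Real.logb 2 ‖y‖)⁻¹ := inv_anti₀ (by linarith) h4.le
    have h6 : e⁻¹ = |N| + 1 := by rw [he, one_div, inv_inv]
    rw [h6] at h5
    have := le_abs_self N
    linarith

/-- the dilation walk on Euclidean space -/
noncomputable def dil (d : ℕ) (hd : 0 < d) : Dila (volume : Measure (EuclideanSpace ℝ (Fin d))) where
  θ := fun y => (2 : ℝ) • y
  η := fun y => (2 : ℝ)⁻¹ • y
  c := 2 ^ d
  hc := one_lt_pow₀ (by norm_num) hd.ne'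
  mθ := measurable_const_smul _
  mη := measurable_const_smul _
  θη := fun x => by rw [smul_smul]; norm_num
  ηθ := fun x => by rw [smul_smul]; norm_num
  map_θ := by
    have h := Measure.map_addHaar_smul (volume : Measure (EuclideanSpace ℝ (Fin d)))
      (r := (2 : ℝ)) (by norm_num)
    rw [finrank_euclideanSpace_fin, abs_of_pos (by positivity)] at h
    exact h
  map_η := by
    have h := Measure.map_addHaar_smul (volume : Measure (EuclideanSpace ℝ (Fin d)))
      (r := (2 : ℝ)⁻¹) (by norm_num)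
    rw [finrank_euclideanSpace_fin, abs_of_pos (by positivity), inv_pow, inv_inv] at h
    exact h
  v := spd
  mv := spd_meas
  v1 := spd_one
  vθ := spd_inv
  big := spd_big hd

end Pool.Agent.V11282.DW
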